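import Pool.Agent.R815.GC.Mixture

/-!
# Divergence of driven processes at criticality
-/

namespace Pool.Agent.R815.GC

open MeasureTheory ProbabilityTheory Filter Topology Finset
open scoped RealInnerProductSpace ENNReal

section diverge

variable {n : ℕ} {Ω : Type} [mΩ : MeasurableSpace Ω] {μ : Measure Ω} [IsProbabilityMeasure μ]
  {ℱ : ℕ → MeasurableSpace Ω} {b c κ : ℝ} {z g : ℕ → Ω → FF n} {m γ : ℕ → Ω → ℝ}

/-- small ball estimate -/
lemma DrivenM.small_ball (h : DrivenM μ ℱ b c κ z g m γ) {ℓ : FF n → ℝ} (hℓ : Measurable ℓ)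
    (t : ℕ) {v L : ℝ} (hv : 0 < v) (hL : 0 ≤ L) :
    μ {ω | v ≤ VV κ z t ω ∧ |m t ω + ℓ (z t ω)| ≤ L} ≤ ENNReal.ofReal (2 * L / √v) := by
  set S : Set (SState n × ℝ) := {p | v ≤ p.1.2.1 ∧ |p.2 + ℓ p.1.1| ≤ L} with hS
  have hSm : MeasurableSet S := by
    apply MeasurableSet.inter
    · exact measurableSet_le (f := fun _ => v) (g := fun p : SState n × ℝ => p.1.2.1)
        measurable_const (by fun_prop)
    · have h1 : Measurable fun p : SState n × ℝ => |p.2 + ℓ p.1.1| := by fun_prop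
      exact measurableSet_le h1 measurable_const
  have hz : Measurable (z t) := (h.dr.z_meas t).mono (h.dr.le t) le_rfl
  have hV : Measurable (VV κ z t) := (VV_meas h.dr t).mono (h.dr.le t) le_rfl
  have hm : ∀ t, Measurable (m t) := fun t => (h.m_meas t).mono (h.dr.le t) le_rfl
  have hset : MeasurableSet {ω | v ≤ VV κ z t ω ∧ |m t ω + ℓ (z t ω)| ≤ L} := by
    have hp : Measurable fun ω => ((z t ω, VV κ z t ω, m 0 ω), m t ω) :=
      (hz.prodMk (hV.prodMk (hm 0))).prodMk (hm t)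
    exact hp hSm
  have h1 := h.mixture t (Set.indicator S 1) (measurable_const.indicator hSm)
  have h2 : ∫⁻ ω, (Set.indicator S 1) ((z t ω, VV κ z t ω, m 0 ω), m t ω) ∂μ
      = μ {ω | v ≤ VV κ z t ω ∧ |m t ω + ℓ (z t ω)| ≤ L} := by
    rw [← lintegral_indicator_one hset]
    rfl
  rw [← h2, h1]
  calc ∫⁻ ω, ∫⁻ y, (Set.indicator S 1) ((z t ω, VV κ z t ω, m 0 ω), m 0 ω + √(VV κ z t ω) * y)
          ∂(gaussianReal 0 1) ∂μ
      ≤ ∫⁻ _, ENNReal.ofReal (2 * L / √v) ∂μ := by
        apply lintegral_mono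
        intro ω
        by_cases hvω : v ≤ VV κ z t ω
        · have hpos : 0 < √(VV κ z t ω) := Real.sqrt_pos.mpr (lt_of_lt_of_le hv hvω)
          have hTm : MeasurableSet
              {y : ℝ | |(m 0 ω + ℓ (z t ω)) + √(VV κ z t ω) * y| ≤ L} :=
            measurableSet_le (f := fun y : ℝ => |(m 0 ω + ℓ (z t ω)) + √(VV κ z t ω) * y|)
              (g := fun _ => L) (by fun_prop) measurable_const
          calc ∫⁻ y, (Set.indicator S 1)
                ((z t ω, VV κ z t ω, m 0 ω), m 0 ω + √(VV κ z t ω) * y) ∂(gaussianReal 0 1)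
              ≤ ∫⁻ y, Set.indicator {y : ℝ | |(m 0 ω + ℓ (z t ω)) + √(VV κ z t ω) * y| ≤ L} 1 y
                  ∂(gaussianReal 0 1) := by
                apply lintegral_mono
                intro y
                by_cases hy : ((z t ω, VV κ z t ω, m 0 ω), m 0 ω + √(VV κ z t ω) * y) ∈ S
                · have hy2 : y ∈ {y : ℝ | |(m 0 ω + ℓ (z t ω)) + √(VV κ z t ω) * y| ≤ L} := by
                    have h3 : |m 0 ω + √(VV κ z t ω) * y + ℓ (z t ω)| ≤ L := hy.2
                    show |(m 0 ω + ℓ (z t ω)) + √(VV κ z t ω) * y| ≤ L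
                    have : (m 0 ω + ℓ (z t ω)) + √(VV κ z t ω) * y
                      = m 0 ω + √(VV κ z t ω) * y + ℓ (z t ω) := by ring
                    rw [this]; exact h3
                  simp only
                  rw [Set.indicator_of_mem hy, Set.indicator_of_mem hy2]
                  rfl
                · simp only
                  rw [Set.indicator_of_notMem hy]
                  exact zero_le
            _ = gaussianReal 0 1 {y : ℝ | |(m 0 ω + ℓ (z t ω)) + √(VV κ z t ω) * y| ≤ L} :=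
                lintegral_indicator_one hTm
            _ ≤ ENNReal.ofReal (2 * L / √(VV κ z t ω)) := gauss_interval _ _ _ hpos
            _ ≤ ENNReal.ofReal (2 * L / √v) := by
                apply ENNReal.ofReal_le_ofReal
                exact div_le_div_of_nonneg_left (by positivity) (Real.sqrt_pos.mpr hv)
                  (Real.sqrt_le_sqrt hvω)
        · have e1 : ∀ y : ℝ, (Set.indicator S (1 : SState n × ℝ → ℝ≥0∞))
                ((z t ω, VV κ z t ω, m 0 ω), m 0 ω + √(VV κ z t ω) * y) = 0 := by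
            intro y
            apply Set.indicator_of_notMem
            intro hy
            exact hvω hy.1
          simp only [e1, lintegral_zero]
          exact zero_le
    _ = ENNReal.ofReal (2 * L / √v) := by simp

lemma cover (t : ℕ) (ht : 2 ≤ t) : ∃ k : ℕ, 1 ≤ k ∧ k ^ 12 < t ∧ t ≤ (k + 1) ^ 12 := by
  classical
  have hex : ∃ j : ℕ, t ≤ j ^ 12 := ⟨t, Nat.le_self_pow (by norm_num) t⟩
  set j := Nat.find hex with hj
  have h1 : t ≤ j ^ 12 := Nat.find_spec hex
  have h2 : 2 ≤ j := by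
    by_contra hcon
    have : j ≤ 1 := by omega
    have h3 : j ^ 12 ≤ 1 ^ 12 := Nat.pow_le_pow_left this 12
    omega
  refine ⟨j - 1, by omega, ?_, ?_⟩
  · have := Nat.find_min hex (m := j - 1) (by omega)
    omega
  · have : j - 1 + 1 = j := by omega
    rw [this]; exact h1

/-- Divergence at criticality. -/
theorem DrivenM.diverge (h : DrivenM μ ℱ b c κ z g m γ) (hκ : 0 < κ) (hc : 0 < c) {e0 : FF n}
    (he : ‖e0‖ = 1) (hmean : ∫ x, x ∂(Xi b c e0) = 0) {ℓ : FF n → ℝ} (hℓ : Measurable ℓ) :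
    ∀ᵐ ω ∂μ, Tendsto (fun t => |m t ω + ℓ (z t ω)|) atTop atTop := by
  -- growth of the variance
  have hst := h.dr.steps he
  have hhigh := hst.ae_high (Xi_pow4 b hc he) hmean (Xi_var b hc he)
  have hlog := h.dr.log_norm (e0 := e0)
  have hV : ∀ᵐ ω ∂μ, ∀ᶠ k : ℕ in atTop, ∀ t, k ^ 12 < t →
      Real.exp ((k : ℝ) ^ 3) ≤ VV κ z t ω := by
    filter_upwards [hhigh, hlog] with ω h1 h2
    have hz0 : 0 < ‖z 0 ω‖ := norm_pos_iff.mpr (h2 0).1
    have hlarge : ∀ᶠ k : ℕ in atTop, -2 * (Real.log κ + Real.log ‖z 0 ω‖) ≤ (k : ℝ) ^ 3 := by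
      have : Tendsto (fun k : ℕ => (k : ℝ) ^ 3) atTop atTop :=
        (tendsto_pow_atTop (by norm_num)).comp tendsto_natCast_atTop_atTop
      exact this.eventually_ge_atTop _
    filter_upwards [h1, hlarge] with k hk1 hk2 t ht
    obtain ⟨r, hr, hr2⟩ := hk1
    have h3 : (κ * ‖z r ω‖) ^ 2 ≤ VV κ z t ω := by
      unfold VV
      exact Finset.single_le_sum (f := fun s => (κ * ‖z s ω‖) ^ 2) (fun _ _ => sq_nonneg _)
        (Finset.mem_range.mpr (by omega))
    refine le_trans ?_ h3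
    have hzr : 0 < ‖z r ω‖ := norm_pos_iff.mpr (h2 r).1
    have h4 : (κ * ‖z r ω‖) ^ 2 = Real.exp (2 * (Real.log κ + Real.log ‖z r ω‖)) := by
      rw [mul_comm 2, Real.exp_mul, Real.exp_add, Real.exp_log hκ, Real.exp_log hzr]
      norm_cast
    rw [h4, (h2 r).2]
    apply Real.exp_le_exp.mpr
    linarith
  -- Borel-Cantelli
  have hBC : ∀ L : ℕ, ∀ᵐ ω ∂μ, ∀ᶠ k : ℕ in atTop, ∀ t, k ^ 12 < t → t ≤ (k + 1) ^ 12 →
      Real.exp ((k : ℝ) ^ 3) ≤ VV κ z t ω → (L : ℝ) < |m t ω + ℓ (z t ω)| := by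
    intro L
    set B : ℕ → Set Ω := fun k => ⋃ t ∈ Finset.Ioc (k ^ 12) ((k + 1) ^ 12),
      {ω | Real.exp ((k : ℝ) ^ 3) ≤ VV κ z t ω ∧ |m t ω + ℓ (z t ω)| ≤ L} with hB
    have hb : ∀ k, μ (B k) ≤ ENNReal.ofReal (2 * L * ((((k + 1 : ℕ) : ℝ)) ^ 12
        * Real.exp (-(1 / 2) * ((k + 1 : ℕ) : ℝ)) * Real.exp 1)) := by
      intro k
      calc μ (B k) ≤ ∑ t ∈ Finset.Ioc (k ^ 12) ((k + 1) ^ 12),
            μ {ω | Real.exp ((k : ℝ) ^ 3) ≤ VV κ z t ω ∧ |m t ω + ℓ (z t ω)| ≤ L} :=
            measure_biUnion_finset_le _ _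
        _ ≤ ∑ t ∈ Finset.Ioc (k ^ 12) ((k + 1) ^ 12),
            ENNReal.ofReal (2 * L / √(Real.exp ((k : ℝ) ^ 3))) := by
            apply Finset.sum_le_sum
            intro t _
            exact h.small_ball hℓ t (Real.exp_pos _) (Nat.cast_nonneg L)
        _ = ENNReal.ofReal (((k + 1) ^ 12 - k ^ 12 : ℕ) * (2 * L / √(Real.exp ((k : ℝ) ^ 3)))) := by
            rw [Finset.sum_const, Nat.card_Ioc, nsmul_eq_mul, ENNReal.ofReal_mul (by positivity),
              ENNReal.ofReal_natCast]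
        _ ≤ _ := by
            apply ENNReal.ofReal_le_ofReal
            have q1 : (((k + 1) ^ 12 - k ^ 12 : ℕ) : ℝ) ≤ ((k + 1 : ℕ) : ℝ) ^ 12 := by
              have : (k + 1) ^ 12 - k ^ 12 ≤ (k + 1) ^ 12 := Nat.sub_le _ _
              exact_mod_cast this
            have q2 : 1 / √(Real.exp ((k : ℝ) ^ 3))
                ≤ Real.exp (-(1 / 2) * ((k + 1 : ℕ) : ℝ)) * Real.exp 1 := by
              have e1 : √(Real.exp ((k : ℝ) ^ 3)) = Real.exp ((k : ℝ) ^ 3 / 2) := by
                rw [Real.exp_half]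
              rw [e1, one_div, ← Real.exp_neg, ← Real.exp_add]
              apply Real.exp_le_exp.mpr
              push_cast
              have q3 : (k : ℝ) ≤ (k : ℝ) ^ 3 + 1 := by
                rcases Nat.eq_zero_or_pos k with h0 | h0
                · rw [h0]; norm_num
                · have : (k : ℝ) ≤ (k : ℝ) ^ 3 := by
                    exact_mod_cast Nat.le_self_pow (by norm_num) k
                  linarith
              linarith
            have q4 : (0 : ℝ) ≤ 2 * L := by positivity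
            calc (((k + 1) ^ 12 - k ^ 12 : ℕ) : ℝ) * (2 * L / √(Real.exp ((k : ℝ) ^ 3)))
                = 2 * L * ((((k + 1) ^ 12 - k ^ 12 : ℕ) : ℝ)
                    * (1 / √(Real.exp ((k : ℝ) ^ 3)))) := by ring
              _ ≤ 2 * L * (((k + 1 : ℕ) : ℝ) ^ 12
                    * (Real.exp (-(1 / 2) * ((k + 1 : ℕ) : ℝ)) * Real.exp 1)) := by
                  apply mul_le_mul_of_nonneg_left _ q4
                  exact mul_le_mul q1 q2 (by positivity) (by positivity)
              _ = _ := by ring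
    have hsum : Summable fun k : ℕ => 2 * (L : ℝ) * ((((k + 1 : ℕ) : ℝ)) ^ 12
        * Real.exp (-(1 / 2) * ((k + 1 : ℕ) : ℝ)) * Real.exp 1) := by
      have h1 := Real.summable_pow_mul_exp_neg_nat_mul 12 (by norm_num : (0 : ℝ) < 1 / 2)
      have h2 := (summable_nat_add_iff 1).mpr h1
      exact (h2.mul_right (Real.exp 1)).mul_left (2 * (L : ℝ))
    have hfin : ∑' k : ℕ, μ (B k) ≠ ⊤ := by
      apply ne_top_of_le_ne_top _ (ENNReal.tsum_le_tsum hb)
      rw [← ENNReal.ofReal_tsum_of_nonneg (fun k => by positivity) hsum]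
      exact ENNReal.ofReal_ne_top
    filter_upwards [ae_eventually_notMem hfin] with ω hω
    filter_upwards [hω] with k hk t ht1 ht2 hv
    by_contra hcon
    apply hk
    rw [hB]
    simp only [Set.mem_iUnion, exists_prop]
    exact ⟨t, Finset.mem_Ioc.mpr ⟨ht1, ht2⟩, hv, not_lt.mp hcon⟩
  have hBC' := ae_all_iff.mpr hBC
  filter_upwards [hV, hBC'] with ω h1 h2
  rw [tendsto_atTop]
  intro a
  obtain ⟨L, hL⟩ := exists_nat_ge a
  have h3 := (h1.and (h2 L))
  rw [eventually_atTop] at h3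
  obtain ⟨K, hK⟩ := h3
  filter_upwards [eventually_ge_atTop (max 2 ((K + 1) ^ 12 + 1))] with t ht
  obtain ⟨k, hk1, hk2, hk3⟩ := cover t (le_trans (le_max_left _ _) ht)
  have hkK : K ≤ k := by
    by_contra hcon
    have h4 : (k + 1) ^ 12 ≤ (K + 1) ^ 12 := Nat.pow_le_pow_left (by omega) 12
    have := le_trans (le_max_right 2 ((K + 1) ^ 12 + 1)) ht
    omega
  obtain ⟨h5, h6⟩ := hK k hkK
  exact le_trans hL (h6 t hk2 hk3 (h5 t hk2)).le

end diverge

end Pool.Agent.R815.GC
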