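import Mathlib

/-!
# Logarithmic moments of Gaussian vectors
-/

namespace Pool.Agent.R815.GC

open MeasureTheory ProbabilityTheory Filter Topology
open scoped RealInnerProductSpace

section real

lemma gauss_le_volume : gaussianReal 0 1 ≤ volume := by
  rw [gaussianReal_of_var_ne_zero 0 one_ne_zero]
  have h : gaussianPDF 0 1 ≤ᵐ[volume] 1 := by
    filter_upwards with x
    unfold gaussianPDF
    rw [Pi.one_apply, ENNReal.ofReal_le_one]
    unfold gaussianPDFReal
    have h1 : (√(2 * Real.pi * (1 : NNReal)))⁻¹ ≤ 1 := by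
      apply inv_le_one_of_one_le₀
      rw [Real.one_le_sqrt]
      have := Real.pi_gt_three
      simp only [NNReal.coe_one, mul_one]
      linarith
    have h2 : Real.exp (-(x - 0) ^ 2 / (2 * (1 : NNReal))) ≤ 1 := by
      rw [Real.exp_le_one_iff]
      have := sq_nonneg (x - 0)
      simp only [NNReal.coe_one, mul_one]
      linarith
    have h3 : 0 ≤ (√(2 * Real.pi * (1 : NNReal)))⁻¹ := by positivity
    calc _ ≤ (1 : ℝ) * 1 := mul_le_mul h1 h2 (Real.exp_pos _).le zero_le_one
      _ = 1 := one_mul 1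
  calc volume.withDensity (gaussianPDF 0 1) ≤ volume.withDensity 1 := withDensity_mono h
    _ = volume := withDensity_one

/-- interval probabilities -/
lemma gauss_interval (a L s : ℝ) (hs : 0 < s) :
    gaussianReal 0 1 {x | |a + s * x| ≤ L} ≤ ENNReal.ofReal (2 * L / s) := by
  have h1 : {x : ℝ | |a + s * x| ≤ L} ⊆ Set.Icc ((-L - a) / s) ((L - a) / s) := by
    intro x hx
    rw [Set.mem_ofPred_eq, abs_le] at hx
    constructor
    · rw [div_le_iff₀ hs]; linarith [hx.1]
    · rw [le_div_iff₀ hs]; linarith [hx.2]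
  calc gaussianReal 0 1 {x | |a + s * x| ≤ L}
      ≤ gaussianReal 0 1 (Set.Icc ((-L - a) / s) ((L - a) / s)) := measure_mono h1
    _ ≤ volume (Set.Icc ((-L - a) / s) ((L - a) / s)) := gauss_le_volume _
    _ = ENNReal.ofReal (2 * L / s) := by
        rw [Real.volume_Icc]
        congr 1
        ring

noncomputable def kk (y : ℝ) : ℝ := (|y|⁻¹) ^ (1 / 2 : ℝ)

lemma kk_eq (y : ℝ) : kk y = y ^ (-(1 / 2) : ℝ) + (-y) ^ (-(1 / 2) : ℝ) := by
  unfold kk
  have hc : Real.cos (-(1 / 2) * Real.pi) = 0 := by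
    have : -(1 / 2) * Real.pi = -(Real.pi / 2) := by ring
    rw [this, Real.cos_neg, Real.cos_pi_div_two]
  rcases lt_trichotomy y 0 with h | h | h
  · rw [abs_of_neg h, Real.rpow_def_of_neg h, hc, mul_zero, zero_add,
      Real.inv_rpow (by linarith), ← Real.rpow_neg (by linarith)]
  · subst h
    have : (0 : ℝ) ^ (-(1 / 2) : ℝ) = 0 := Real.zero_rpow (by norm_num)
    simp [this]
  · rw [abs_of_pos h, Real.rpow_def_of_neg (by linarith : -y < 0), hc, mul_zero, add_zero,
      Real.inv_rpow h.le, ← Real.rpow_neg h.le]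

lemma kk_intOn : IntegrableOn kk (Set.Ioc (-1) 1) volume := by
  have h1 : IntervalIntegrable (fun y : ℝ => y ^ (-(1 / 2) : ℝ)) volume (-1) 1 :=
    intervalIntegral.intervalIntegrable_rpow' (by norm_num)
  have h2 : IntervalIntegrable (fun y : ℝ => (-y) ^ (-(1 / 2) : ℝ)) volume (-1) 1 := by
    have h3 : IntervalIntegrable (fun y : ℝ => y ^ (-(1 / 2) : ℝ)) volume 1 (-1) :=
      intervalIntegral.intervalIntegrable_rpow' (by norm_num)
    have := (IntervalIntegrable.iff_comp_neg (by simp)).mp h3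
    simpa using this
  have h3 := h1.add h2
  rw [intervalIntegrable_iff_integrableOn_Ioc_of_le (by norm_num)] at h3
  apply h3.congr_fun _ measurableSet_Ioc
  intro y _
  rw [kk_eq]

lemma kk_nonneg (y : ℝ) : 0 ≤ kk y := by unfold kk; positivity

lemma kk_meas : Measurable kk := by unfold kk; fun_prop

lemma kk_int (a c : ℝ) (hc : 0 < c) : Integrable (fun x => kk (a + c * x)) (gaussianReal 0 1) := by
  have h1 : Integrable (Set.indicator (Set.Ioc (-1) 1) kk) volume :=
    (integrable_indicator_iff measurableSet_Ioc).mpr kk_intOn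
  have h2 : Integrable (fun x => Set.indicator (Set.Ioc (-1) 1) kk (a + c * x)) volume := by
    have h3 := (h1.comp_add_left a).comp_mul_left' hc.ne'
    exact h3
  have h3 : Integrable (fun x => Set.indicator (Set.Ioc (-1) 1) kk (a + c * x))
      (gaussianReal 0 1) := h2.mono_measure gauss_le_volume
  have h4 : Integrable (fun x => 1 + Set.indicator (Set.Ioc (-1) 1) kk (a + c * x))
      (gaussianReal 0 1) := (integrable_const 1).add h3
  apply h4.mono' ((kk_meas.comp (by fun_prop)).aestronglyMeasurable)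
  filter_upwards with x
  simp only [Function.comp_apply]
  rw [Real.norm_eq_abs, abs_of_nonneg (kk_nonneg _)]
  by_cases h : a + c * x ∈ Set.Ioc (-1 : ℝ) 1
  · rw [Set.indicator_of_mem h]; linarith
  · rw [Set.indicator_of_notMem h, add_zero]
    unfold kk
    apply Real.rpow_le_one (by positivity) _ (by norm_num)
    rw [Set.mem_Ioc, not_and_or] at h
    have h5 : 1 ≤ |a + c * x| := by
      rcases h with h | h
      · rw [abs_of_nonpos (by linarith)]; linarith
      · rw [abs_of_pos (by linarith)]; linarith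
    exact inv_le_one_of_one_le₀ h5

lemma log_pow4_le (r : ℝ) (hr : 0 ≤ r) :
    Real.log r ^ 4 ≤ 32768 * (1 + r + (r⁻¹) ^ (1 / 2 : ℝ)) := by
  have h1 := Real.log_le_rpow_div hr (by norm_num : (0 : ℝ) < 1 / 8)
  have h2 := Real.log_le_rpow_div (inv_nonneg.mpr hr) (by norm_num : (0 : ℝ) < 1 / 8)
  rw [Real.log_inv] at h2
  set a := r ^ (1 / 8 : ℝ) with ha
  set b := (r⁻¹) ^ (1 / 8 : ℝ) with hb
  have ha0 : 0 ≤ a := by positivity
  have hb0 : 0 ≤ b := by positivity
  have h3 : |Real.log r| ≤ 8 * (a + b) := by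
    rw [abs_le]
    constructor
    · have : b / (1 / 8) = 8 * b := by ring
      linarith
    · have : a / (1 / 8) = 8 * a := by ring
      linarith
  have h4 : Real.log r ^ 4 = |Real.log r| ^ 4 := by
    have : |Real.log r| ^ 4 = (|Real.log r| ^ 2) ^ 2 := by ring
    rw [this, sq_abs]; ring
  have h5 : |Real.log r| ^ 4 ≤ (8 * (a + b)) ^ 4 := pow_le_pow_left₀ (abs_nonneg _) h3 4
  have h6 : (a + b) ^ 4 ≤ 8 * (a ^ 4 + b ^ 4) := by
    have e1 : (a + b) ^ 2 ≤ 2 * (a ^ 2 + b ^ 2) := by nlinarith [sq_nonneg (a - b)]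
    have e2 : ((a + b) ^ 2) ^ 2 ≤ (2 * (a ^ 2 + b ^ 2)) ^ 2 :=
      pow_le_pow_left₀ (sq_nonneg _) e1 2
    nlinarith [sq_nonneg (a ^ 2 - b ^ 2)]
  have h7 : a ^ 4 = r ^ (1 / 2 : ℝ) := by
    rw [ha, ← Real.rpow_natCast, ← Real.rpow_mul hr]; norm_num
  have h8 : b ^ 4 = (r⁻¹) ^ (1 / 2 : ℝ) := by
    rw [hb, ← Real.rpow_natCast, ← Real.rpow_mul (inv_nonneg.mpr hr)]; norm_num
  have h9 : r ^ (1 / 2 : ℝ) ≤ 1 + r := by
    rw [← Real.sqrt_eq_rpow]
    have : √r ^ 2 = r := Real.sq_sqrt hr
    nlinarith [sq_nonneg (√r - 1), Real.sqrt_nonneg r]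
  rw [h4]
  calc |Real.log r| ^ 4 ≤ (8 * (a + b)) ^ 4 := h5
    _ = 4096 * (a + b) ^ 4 := by ring
    _ ≤ 4096 * (8 * (a ^ 4 + b ^ 4)) := by linarith
    _ = 32768 * (r ^ (1 / 2 : ℝ) + (r⁻¹) ^ (1 / 2 : ℝ)) := by rw [h7, h8]; ring
    _ ≤ _ := by linarith

end real

section vec

variable {n : ℕ}

/-- the model space -/
abbrev FF (n : ℕ) : Type := EuclideanSpace ℝ (Fin n)

/-- a linear functional of a standard Gaussian vector -/
lemma std_inner {E : Type} [NormedAddCommGroup E] [InnerProductSpace ℝ E]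
    [FiniteDimensional ℝ E] [MeasurableSpace E] [BorelSpace E] {e : E} (he : ‖e‖ = 1) :
    (stdGaussian E).map (fun g => ⟪e, g⟫) = gaussianReal 0 1 := by
  have h1 : (fun g : E => ⟪e, g⟫) = innerSL ℝ e := rfl
  rw [h1, IsGaussian.map_eq_gaussianReal, integral_strongDual_stdGaussian,
    variance_dual_stdGaussian, innerSL_apply_norm, he]
  simp

/-- the law of the logarithmic increment -/
noncomputable def Xi (b c : ℝ) (e : FF n) : Measure ℝ :=
  (stdGaussian (FF n)).map (fun g => Real.log ‖b • e + c • g‖)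

lemma Xi_eq (b c : ℝ) {e e' : FF n} (he : ‖e‖ = 1) (he' : ‖e'‖ = 1) :
    Xi b c e = Xi b c e' := by
  unfold Xi
  set R : FF n ≃ₗᵢ[ℝ] FF n := (ℝ ∙ (e - e'))ᗮ.reflection with hR
  have hRe : R e = e' := Submodule.reflection_sub (by rw [he, he'])
  have h1 := stdGaussian_map (E := FF n) (F := FF n) R
  conv_rhs => rw [← h1]
  rw [Measure.map_map (by fun_prop) R.continuous.measurable]
  congr 1
  funext g
  simp only [Function.comp_apply]
  have : b • e' + c • R g = R (b • e + c • g) := by
    rw [map_add, map_smul, map_smul, hRe]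
  rw [this, R.norm_map]

lemma Xi_prob (b c : ℝ) (e : FF n) : IsProbabilityMeasure (Xi b c e) :=
  Measure.isProbabilityMeasure_map (Measurable.aemeasurable (by fun_prop))

lemma Xi_pow4 (b : ℝ) {c : ℝ} (hc : 0 < c) {e : FF n} (he : ‖e‖ = 1) :
    Integrable (fun x => x ^ 4) (Xi b c e) := by
  unfold Xi
  have hm : Measurable fun g : FF n => Real.log ‖b • e + c • g‖ := by fun_prop
  rw [integrable_map_measure (by fun_prop) hm.aemeasurable]
  have h1 : Integrable (fun g : FF n => ‖b • e + c • g‖) (stdGaussian (FF n)) := by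
    apply Integrable.norm
    exact (integrable_const _).add (IsGaussian.integrable_id.smul c)
  have h2 : Integrable (fun g : FF n => kk (b + c * ⟪e, g⟫)) (stdGaussian (FF n)) := by
    have h3 := kk_int b c hc
    rw [← std_inner he] at h3
    have hk : Measurable fun x : ℝ => kk (b + c * x) := kk_meas.comp (by fun_prop)
    have hi : Measurable fun g : FF n => ⟪e, g⟫ := by fun_prop
    exact (integrable_map_measure hk.aestronglyMeasurable hi.aemeasurable).mp h3
  have h4 : Integrable (fun g : FF n => 32768 * (1 + ‖b • e + c • g‖ + kk (b + c * ⟪e, g⟫)))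
      (stdGaussian (FF n)) :=
    (((integrable_const 1).add h1).add h2).const_mul 32768
  have hm4 : Measurable ((fun x : ℝ => x ^ 4) ∘ fun g : FF n => Real.log ‖b • e + c • g‖) := by
    fun_prop
  apply h4.mono' hm4.aestronglyMeasurable
  have hne : ∀ᵐ g ∂(stdGaussian (FF n)), b + c * ⟪e, g⟫ ≠ 0 := by
    have h5 : gaussianReal 0 1 {x : ℝ | b + c * x = 0} = 0 := by
      have := nullSingletonClass_gaussianReal (μ := 0) (v := 1) one_ne_zero
      refine measure_mono_null (t := {-b / c}) ?_ (measure_singleton _)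
      intro x hx
      rw [Set.mem_ofPred_eq] at hx
      rw [Set.mem_singleton_iff, eq_div_iff hc.ne']
      linarith
    rw [← std_inner he, Measure.map_apply (by fun_prop)
      (measurableSet_eq_fun (by fun_prop) (by fun_prop))] at h5
    rw [ae_iff]
    simpa using h5
  filter_upwards [hne] with g hg
  simp only [Function.comp_apply]
  rw [Real.norm_eq_abs, abs_of_nonneg (by positivity)]
  have h6 := log_pow4_le ‖b • e + c • g‖ (norm_nonneg _)
  have h7 : |b + c * ⟪e, g⟫| ≤ ‖b • e + c • g‖ := by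
    have h8 : ⟪e, b • e + c • g⟫ = b + c * ⟪e, g⟫ := by
      rw [inner_add_right, inner_smul_right, inner_smul_right, real_inner_self_eq_norm_sq, he]
      ring
    rw [← h8]
    have := abs_real_inner_le_norm e (b • e + c • g)
    rwa [he, one_mul] at this
  have h9 : (‖b • e + c • g‖⁻¹) ^ (1 / 2 : ℝ) ≤ kk (b + c * ⟪e, g⟫) := by
    unfold kk
    apply Real.rpow_le_rpow (by positivity) _ (by norm_num)
    exact inv_anti₀ (abs_pos.mpr hg) h7
  linarith

lemma Xi_var (b : ℝ) {c : ℝ} (hc : 0 < c) {e : FF n} (he : ‖e‖ = 1) :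
    0 < ∫ x, x ^ 2 ∂(Xi b c e) := by
  have hP := Xi_prob b c e
  have h4 := Xi_pow4 b hc he
  have i2 : Integrable (fun x : ℝ => x ^ 2) (Xi b c e) :=
    Integrable.mono' ((integrable_const (1 : ℝ)).add h4) (by fun_prop)
      (Filter.Eventually.of_forall fun a => by
        rw [Real.norm_eq_abs, abs_of_nonneg (sq_nonneg a)]
        simp only [Pi.add_apply]
        nlinarith [sq_nonneg (a ^ 2 - 1)])
  apply lt_of_le_of_ne (integral_nonneg fun _ => sq_nonneg _)
  intro h0
  have h1 := (integral_eq_zero_iff_of_nonneg (fun _ => sq_nonneg _) i2).mp h0.symm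
  unfold Xi at h1
  have hm : Measurable fun g : FF n => Real.log ‖b • e + c • g‖ := by fun_prop
  have h2 := ae_of_ae_map hm.aemeasurable h1
  have h3 : ∀ᵐ g ∂(stdGaussian (FF n)), |b + c * ⟪e, g⟫| ≤ 1 := by
    filter_upwards [h2] with g hg
    have hlog : Real.log ‖b • e + c • g‖ = 0 := by
      have : Real.log ‖b • e + c • g‖ ^ 2 = 0 := hg
      exact pow_eq_zero_iff (two_ne_zero) |>.mp this
    have h7 : |b + c * ⟪e, g⟫| ≤ ‖b • e + c • g‖ := by
      have h8 : ⟪e, b • e + c • g⟫ = b + c * ⟪e, g⟫ := by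
        rw [inner_add_right, inner_smul_right, inner_smul_right, real_inner_self_eq_norm_sq, he]
        ring
      rw [← h8]
      have := abs_real_inner_le_norm e (b • e + c • g)
      rwa [he, one_mul] at this
    refine h7.trans ?_
    rcases Real.log_eq_zero.mp hlog with h | h | h
    · rw [h]; norm_num
    · rw [h]
    · rw [h]; norm_num
  have h5 : gaussianReal 0 1 {x : ℝ | ¬ |b + c * x| ≤ 1} = 0 := by
    have hi : Measurable fun g : FF n => ⟪e, g⟫ := by fun_prop
    have hS : MeasurableSet {x : ℝ | ¬ |b + c * x| ≤ 1} :=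
      (measurableSet_le (f := fun x : ℝ => |b + c * x|) (g := fun _ => (1 : ℝ))
        (by fun_prop) measurable_const).compl
    rw [← std_inner he, Measure.map_apply hi hS]
    rw [ae_iff] at h3
    exact h3
  have h6 := gaussianReal_absolutelyContinuous' 0 (v := 1) one_ne_zero h5
  have h7 : Set.Ioi ((1 - b) / c) ⊆ {x : ℝ | ¬ |b + c * x| ≤ 1} := by
    intro x hx
    rw [Set.mem_Ioi, div_lt_iff₀ hc] at hx
    rw [Set.mem_ofPred_eq, not_le]
    exact lt_of_lt_of_le (by linarith) (le_abs_self _)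
  have h8 := measure_mono_null h7 h6
  rw [Real.volume_Ioi] at h8
  exact ENNReal.top_ne_zero h8

/-- standard Gaussian vectors have no atoms -/
lemma std_no_atom (hn : 0 < n) (v : FF n) {c : ℝ} (hc : c ≠ 0) :
    stdGaussian (FF n) {g | v + c • g = 0} = 0 := by
  set e : FF n := EuclideanSpace.single ⟨0, hn⟩ 1 with he'
  have he : ‖e‖ = 1 := by rw [he']; simp
  have h5 : gaussianReal 0 1 {x : ℝ | ⟪e, v⟫ + c * x = 0} = 0 := by
    have := nullSingletonClass_gaussianReal (μ := 0) (v := 1) one_ne_zero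
    refine measure_mono_null (t := {-⟪e, v⟫ / c}) ?_ (measure_singleton _)
    intro x hx
    rw [Set.mem_ofPred_eq] at hx
    rw [Set.mem_singleton_iff, eq_div_iff hc]
    linarith
  rw [← std_inner he, Measure.map_apply (by fun_prop)
    (measurableSet_eq_fun (by fun_prop) (by fun_prop))] at h5
  refine measure_mono_null ?_ h5
  intro g hg
  rw [Set.mem_ofPred_eq] at hg
  rw [Set.mem_preimage, Set.mem_ofPred_eq]
  have : ⟪e, v + c • g⟫ = 0 := by rw [hg, inner_zero_right]
  rw [inner_add_right, inner_smul_right] at this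
  exact this

end vec

end Pool.Agent.R815.GC
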