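import Pool.Agent.R815.GC.Walk
import Pool.Agent.R815.GC.Gauss

/-!
# Processes driven by independent standard Gaussian vectors
-/

namespace Pool.Agent.R815.GC

open MeasureTheory ProbabilityTheory Filter Topology Finset
open scoped RealInnerProductSpace ENNReal

section mix

variable {Ω : Type} {𝒜 : MeasurableSpace Ω} [mΩ : MeasurableSpace Ω] {μ : Measure Ω}
  [IsProbabilityMeasure μ]

/-- integrating out a variable which is independent of the past -/
lemma mix {𝒴 𝒲 : Type} [MeasurableSpace 𝒴] [MeasurableSpace 𝒲]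
    (h𝒜 : 𝒜 ≤ mΩ) {Y : Ω → 𝒴} (hY : Measurable[𝒜] Y) {W : Ω → 𝒲} (hW : Measurable W)
    (hI : Indep 𝒜 (MeasurableSpace.comap W inferInstance) μ) {A : Set Ω}
    (hA : MeasurableSet[𝒜] A) {f : 𝒴 × 𝒲 → ℝ≥0∞} (hf : Measurable f) :
    ∫⁻ ω in A, f (Y ω, W ω) ∂μ = ∫⁻ ω in A, ∫⁻ w, f (Y ω, w) ∂(μ.map W) ∂μ := by
  have hY' : Measurable Y := hY.mono h𝒜 le_rfl
  have hA' : MeasurableSet A := h𝒜 _ hA
  have key : ((μ.restrict A).map Y).prod (μ.map W) = (μ.restrict A).map (fun ω => (Y ω, W ω)) := by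
    apply Measure.prod_eq
    intro s t hs ht
    rw [Measure.map_apply (hY'.prodMk hW) (hs.prod ht),
      Measure.restrict_apply ((hY'.prodMk hW) (hs.prod ht)), Measure.map_apply hY' hs,
      Measure.map_apply hW ht, Measure.restrict_apply (hY' hs)]
    have e : (fun ω => (Y ω, W ω)) ⁻¹' s ×ˢ t ∩ A = (Y ⁻¹' s ∩ A) ∩ W ⁻¹' t := by
      ext ω; simp only [Set.mem_inter_iff, Set.mem_preimage, Set.mem_prod]; tauto
    rw [e]
    exact (Indep_iff _ _ _).mp hI _ _ (@MeasurableSet.inter _ 𝒜 _ _ (hY hs) hA) ⟨t, ht, rfl⟩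
  calc ∫⁻ ω in A, f (Y ω, W ω) ∂μ
      = ∫⁻ p, f p ∂((μ.restrict A).map (fun ω => (Y ω, W ω))) :=
        (lintegral_map hf (hY'.prodMk hW)).symm
    _ = ∫⁻ y, ∫⁻ w, f (y, w) ∂(μ.map W) ∂((μ.restrict A).map Y) := by
        rw [← key, lintegral_prod _ hf.aemeasurable]
    _ = _ := by
        rw [lintegral_map (Measurable.lintegral_prod_right' hf) hY']

lemma mix_univ {𝒴 𝒲 : Type} [MeasurableSpace 𝒴] [MeasurableSpace 𝒲]
    (h𝒜 : 𝒜 ≤ mΩ) {Y : Ω → 𝒴} (hY : Measurable[𝒜] Y) {W : Ω → 𝒲} (hW : Measurable W)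
    (hI : Indep 𝒜 (MeasurableSpace.comap W inferInstance) μ)
    {f : 𝒴 × 𝒲 → ℝ≥0∞} (hf : Measurable f) :
    ∫⁻ ω, f (Y ω, W ω) ∂μ = ∫⁻ ω, ∫⁻ w, f (Y ω, w) ∂(μ.map W) ∂μ := by
  have := mix (μ := μ) h𝒜 hY hW hI (A := Set.univ) (@MeasurableSet.univ _ 𝒜) hf
  simpa using this

end mix

section driven

variable {n : ℕ}

/-- a process driven by standard Gaussian vectors -/
structure Driven {Ω : Type} [mΩ : MeasurableSpace Ω] (μ : Measure Ω) (ℱ : ℕ → MeasurableSpace Ω)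
    (b c : ℝ) (z g : ℕ → Ω → FF n) : Prop where
  le : ∀ t, ℱ t ≤ mΩ
  mono : Monotone ℱ
  z_meas : ∀ t, Measurable[ℱ t] (z t)
  g_meas : ∀ t, Measurable[ℱ (t + 1)] (g t)
  indep : ∀ t, Indep (ℱ t) (MeasurableSpace.comap (g t) inferInstance) μ
  law : ∀ t, μ.map (g t) = stdGaussian (FF n)
  ne : ∀ t, ∀ᵐ ω ∂μ, z t ω ≠ 0
  step : ∀ t, ∀ᵐ ω ∂μ, z (t + 1) ω = b • z t ω + (c * ‖z t ω‖) • g t ω

open Classical in
/-- direction of a vector -/
noncomputable def dir (e0 z : FF n) : FF n := if z = 0 then e0 else ‖z‖⁻¹ • z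

lemma dir_meas (e0 : FF n) : Measurable (dir e0) := by
  classical
  unfold dir
  exact Measurable.ite (measurableSet_singleton 0) measurable_const
    (measurable_norm.inv.smul measurable_id)

lemma dir_norm {e0 : FF n} (he : ‖e0‖ = 1) (z : FF n) : ‖dir e0 z‖ = 1 := by
  unfold dir
  split_ifs with h
  · exact he
  · rw [norm_smul, norm_inv, norm_norm, inv_mul_cancel₀ (norm_ne_zero_iff.mpr h)]

lemma norm_smul_dir {e0 : FF n} {z : FF n} (h : z ≠ 0) : ‖z‖ • dir e0 z = z := by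
  unfold dir
  rw [if_neg h, smul_smul, mul_inv_cancel₀ (norm_ne_zero_iff.mpr h), one_smul]

variable {Ω : Type} [mΩ : MeasurableSpace Ω] {μ : Measure Ω} [IsProbabilityMeasure μ]
  {ℱ : ℕ → MeasurableSpace Ω} {b c : ℝ} {z g : ℕ → Ω → FF n}

/-- the logarithmic increments -/
noncomputable def inc (b c : ℝ) (e0 : FF n) (z g : ℕ → Ω → FF n) (t : ℕ) (ω : Ω) : ℝ :=
  Real.log ‖b • dir e0 (z t ω) + c • g t ω‖

lemma logdir_meas (b c : ℝ) (e0 : FF n) :
    Measurable (fun p : FF n × FF n => Real.log ‖b • dir e0 p.1 + c • p.2‖) := by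
  have h1 : Measurable (fun p : FF n × FF n => dir e0 p.1) := (dir_meas e0).comp measurable_fst
  exact Real.measurable_log.comp (((h1.const_smul b).add (measurable_snd.const_smul c)).norm)

lemma Driven.steps (h : Driven μ ℱ b c z g) {e0 : FF n} (he : ‖e0‖ = 1) :
    Steps μ ℱ (inc b c e0 z g) (Xi b c e0) := by
  have hg : ∀ t, Measurable (g t) := fun t => (h.g_meas t).mono (h.le _) le_rfl
  have hmeas : ∀ t, Measurable[ℱ (t + 1)] (inc b c e0 z g t) := by
    intro t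
    have h1 : Measurable[ℱ (t + 1)] (z t) := (h.z_meas t).mono (h.mono (Nat.le_succ t)) le_rfl
    have h3 : Measurable[ℱ (t + 1)] (fun ω => (z t ω, g t ω)) := h1.prodMk (h.g_meas t)
    have h4 : inc b c e0 z g t = (fun p : FF n × FF n => Real.log ‖b • dir e0 p.1 + c • p.2‖) ∘
        (fun ω => (z t ω, g t ω)) := rfl
    rw [h4]
    exact (logdir_meas b c e0).comp h3
  have hmeas' : ∀ t, Measurable (inc b c e0 z g t) := fun t => (hmeas t).mono (h.le _) le_rfl
  -- main computation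
  have key : ∀ (t : ℕ) (A : Set Ω), MeasurableSet[ℱ t] A → ∀ B : Set ℝ, MeasurableSet B →
      μ (A ∩ inc b c e0 z g t ⁻¹' B) = μ A * Xi b c e0 B := by
    intro t A hA B hB
    set f : FF n × FF n → ℝ≥0∞ := fun p =>
      Set.indicator B 1 (Real.log ‖b • dir e0 p.1 + c • p.2‖) with hf
    have hfm : Measurable f := (measurable_const.indicator hB).comp (logdir_meas b c e0)
    have h1 := mix (h.le t) (h.z_meas t) (hg t) (h.indep t) hA hfm
    have h2 : ∫⁻ ω in A, f (z t ω, g t ω) ∂μ = μ (A ∩ inc b c e0 z g t ⁻¹' B) := by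
      have : (fun ω => f (z t ω, g t ω)) = Set.indicator (inc b c e0 z g t ⁻¹' B) 1 := by
        funext ω
        rfl
      rw [this, lintegral_indicator_one (hmeas' t hB), Measure.restrict_apply (hmeas' t hB),
        Set.inter_comm]
    have h3 : ∀ ω, ∫⁻ w, f (z t ω, w) ∂(μ.map (g t)) = Xi b c e0 B := by
      intro ω
      rw [h.law t, ← Xi_eq b c (dir_norm he (z t ω)) he]
      unfold Xi
      have hmm : Measurable fun g : FF n => Real.log ‖b • dir e0 (z t ω) + c • g‖ :=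
        Real.measurable_log.comp ((measurable_const.add (measurable_id.const_smul c)).norm)
      rw [Measure.map_apply hmm hB, ← lintegral_indicator_one (hmm hB)]
      apply lintegral_congr
      intro w
      rfl
    rw [h2] at h1
    rw [h1]
    simp only [h3]
    rw [setLIntegral_const, mul_comm]
  have hlaw : ∀ t, μ.map (inc b c e0 z g t) = Xi b c e0 := by
    intro t
    ext B hB
    rw [Measure.map_apply (hmeas' t) hB]
    have := key t Set.univ (@MeasurableSet.univ _ (ℱ t)) B hB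
    simpa using this
  refine ⟨h.le, h.mono, hmeas, ?_, hlaw⟩
  intro t
  rw [Indep_iff]
  rintro A S hA ⟨B, hB, rfl⟩
  rw [key t A hA B hB, ← hlaw t, Measure.map_apply (hmeas' t) hB]

/-- the logarithm of the norm is a sum of increments -/
lemma Driven.log_norm (h : Driven μ ℱ b c z g) {e0 : FF n} :
    ∀ᵐ ω ∂μ, ∀ t, z t ω ≠ 0 ∧
      Real.log ‖z t ω‖ = Real.log ‖z 0 ω‖ + SS (inc b c e0 z g) t ω := by
  have h1 : ∀ᵐ ω ∂μ, ∀ t, z t ω ≠ 0 := ae_all_iff.mpr h.ne
  have h2 : ∀ᵐ ω ∂μ, ∀ t, z (t + 1) ω = b • z t ω + (c * ‖z t ω‖) • g t ω :=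
    ae_all_iff.mpr h.step
  filter_upwards [h1, h2] with ω a1 a2
  intro t
  refine ⟨a1 t, ?_⟩
  induction t with
  | zero => simp [SS]
  | succ t ih =>
    have e1 : z (t + 1) ω = ‖z t ω‖ • (b • dir e0 (z t ω) + c • g t ω) := by
      rw [a2 t, smul_add, smul_comm ‖z t ω‖ b, norm_smul_dir (a1 t), smul_smul, mul_comm c]
    have e2 : ‖z (t + 1) ω‖ = ‖z t ω‖ * ‖b • dir e0 (z t ω) + c • g t ω‖ := by
      rw [e1, norm_smul, norm_norm]
    have e3 : ‖b • dir e0 (z t ω) + c • g t ω‖ ≠ 0 := by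
      intro h0
      rw [h0, mul_zero, norm_eq_zero] at e2
      exact a1 (t + 1) e2
    rw [e2, Real.log_mul (norm_ne_zero_iff.mpr (a1 t)) e3, ih]
    unfold SS
    rw [Finset.sum_range_succ]
    unfold inc
    ring

end driven

end Pool.Agent.R815.GC
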