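import Pool.Agent.R815.GC.Proj

/-!
# The Gaussian consensus process is a driven process
-/

namespace Pool.Agent.R815.GC

open MeasureTheory ProbabilityTheory Filter Topology Finset Matrix
open scoped RealInnerProductSpace ENNReal

section final

variable {n d : ℕ} (B : OrthonormalBasis (Fin (n + 1)) ℝ (FF (n + 1)))

lemma mean_meas : Measurable (mean : (Fin (n + 1) → FF d) → FF d) := by
  have h : Measurable fun x : Fin (n + 1) → FF d => ∑ k, x k :=
    Finset.measurable_fun_sum _ fun k _ => measurable_pi_apply k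
  exact h.const_smul (((n + 1 : ℕ) : ℝ))⁻¹

lemma inner_mean_meas (u : FF d) : Measurable fun x : Fin (n + 1) → FF d => ⟪u, mean x⟫ := by
  have h1 : Measurable fun y : FF d => ⟪u, y⟫ := by fun_prop
  exact h1.comp mean_meas

lemma coy_meas (u : FF d) : Measurable fun x : Fin (n + 1) → FF d => co B (yv u x) := by
  have h1 : Measurable fun (x : Fin (n + 1) → FF d) (i : Fin (n + 1)) => ⟪u, x i⟫ := by
    apply measurable_pi_lambda
    intro i
    have : Measurable fun y : FF d => ⟪u, y⟫ := by fun_prop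
    exact this.comp (measurable_pi_apply i)
  have h2 : Measurable (WithLp.toLp 2 : (Fin (n + 1) → ℝ) → FF (n + 1)) := by fun_prop
  exact (co_meas B).comp (h2.comp h1)

lemma wn_meas (c κ β : ℝ) (u : FF d) : Measurable
    fun p : (Fin (n + 1) → FF d) × (Fin (n + 1) → FF d) => wn B c κ β u p.1 p.2 := by
  unfold wn
  have h1 : Measurable fun p : (Fin (n + 1) → FF d) × (Fin (n + 1) → FF d) =>
      (co B (yv u p.1)).1 := ((coy_meas B u).comp measurable_fst).fst
  have h2 : Measurable fun p : (Fin (n + 1) → FF d) × (Fin (n + 1) → FF d) =>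
      (co B (yv u p.2)).1 := ((coy_meas B u).comp measurable_snd).fst
  have h3 : Measurable fun p : (Fin (n + 1) → FF d) × (Fin (n + 1) → FF d) =>
      ⟪u, mean p.1⟫ := (inner_mean_meas u).comp measurable_fst
  have h4 : Measurable fun p : (Fin (n + 1) → FF d) × (Fin (n + 1) → FF d) =>
      ⟪u, mean p.2⟫ := (inner_mean_meas u).comp measurable_snd
  have h5 : Measurable fun p : (Fin (n + 1) → FF d) × (Fin (n + 1) → FF d) =>
      (c * ‖(co B (yv u p.1)).1‖)⁻¹ := (h1.norm.const_mul c).inv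
  have h6 : Measurable fun p : (Fin (n + 1) → FF d) × (Fin (n + 1) → FF d) =>
      (κ * ‖(co B (yv u p.1)).1‖)⁻¹ := (h1.norm.const_mul κ).inv
  exact (h5.smul (h2.sub (h1.const_smul β))).prodMk (h6.mul (h4.sub h3))

lemma wn_fst (c κ β : ℝ) (u : FF d) (x x' : Fin (n + 1) → FF d) :
    (wn B c κ β u x x').1
      = (c * ‖(co B (yv u x)).1‖)⁻¹ • ((co B (yv u x')).1 - β • (co B (yv u x)).1) := rfl

lemma wn_snd (c κ β : ℝ) (u : FF d) (x x' : Fin (n + 1) → FF d) :
    (wn B c κ β u x x').2
      = (κ * ‖(co B (yv u x)).1‖)⁻¹ * (⟪u, mean x'⟫ - ⟪u, mean x⟫) := rfl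

attribute [local irreducible] wn co yv stepLaw

/-- The projected process is a driven process. -/
theorem consensus_driven (hn : 0 < n) (hB : B 0 = nh n) {α β : ℝ} (hα : 0 < α) (hβ1 : β < 1)
    {u : FF d} (hu : u ≠ 0) {Ω : Type} [mΩ : MeasurableSpace Ω] {μ : Measure Ω}
    [IsProbabilityMeasure μ] {X : ℕ → Ω → Fin (n + 1) → FF d} (hX : IsConsensus α β μ X)
    (hpd : ∀ᵐ ω ∂μ, (cov (X 0 ω)).PosDef) {c κ : ℝ}
    (hc : c = √(α * (1 - β) ^ 2 / ((n : ℝ) + 1))) (hκ : κ = c / √((n : ℝ) + 1)) :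
    DrivenM μ (fun t => MeasurableSpace.comap (fun ω (s : Fin (t + 1)) => X s ω) inferInstance)
      β c κ (fun t ω => (co B (yv u (X t ω))).1)
      (fun t ω => (wn B c κ β u (X t ω) (X (t + 1) ω)).1)
      (fun t ω => ⟪u, mean (X t ω)⟫)
      (fun t ω => (wn B c κ β u (X t ω) (X (t + 1) ω)).2) := by
  have hc0 : 0 < c := by
    rw [hc]
    apply Real.sqrt_pos.mpr
    have : 0 < 1 - β := by linarith
    positivity
  have hκ0 : 0 < κ := by rw [hκ]; exact div_pos hc0 (sqrt_pos' n)
  set H : ∀ t : ℕ, Ω → (Fin (t + 1) → Fin (n + 1) → FF d) := fun t ω s => X s ω with hH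
  have hHm : ∀ t, Measurable (H t) := fun t => measurable_pi_lambda _ fun s => hX.meas s
  set ℱ : ℕ → MeasurableSpace Ω := fun t => MeasurableSpace.comap (H t) inferInstance with hℱ
  have hle : ∀ t, ℱ t ≤ mΩ := fun t => (hHm t).comap_le
  have hHF : ∀ t, Measurable[ℱ t] (H t) := fun t => comap_measurable (H t)
  have hXF : ∀ s t, s ≤ t → Measurable[ℱ t] (X s) := by
    intro s t hst
    have h1 : X s = (fun h : Fin (t + 1) → Fin (n + 1) → FF d => h ⟨s, by omega⟩) ∘ H t := rfl
    rw [h1]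
    exact (measurable_pi_apply _).comp (hHF t)
  have hmono : Monotone ℱ := by
    intro s t hst
    have h1 : Measurable[ℱ t] (H s) := by
      refine @measurable_pi_lambda _ _ _ (ℱ t) _ _ (fun r => ?_)
      exact hXF r t (by have := r.isLt; omega)
    exact h1.comap_le
  set z : ℕ → Ω → FF n := fun t ω => (co B (yv u (X t ω))).1 with hz
  set W : ℕ → Ω → FF n × ℝ := fun t ω => wn B c κ β u (X t ω) (X (t + 1) ω) with hW
  have hzm : ∀ t, Measurable[ℱ t] (z t) := fun t =>
    (coy_meas B u).fst.comp (hXF t t le_rfl)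
  have hWF : ∀ t, Measurable[ℱ (t + 1)] (W t) := fun t =>
    (wn_meas B c κ β u).comp ((hXF t (t + 1) (Nat.le_succ t)).prodMk (hXF (t + 1) (t + 1) le_rfl))
  have hWm : ∀ t, Measurable (W t) := fun t => (hWF t).mono (hle _) le_rfl
  -- main computation
  have key : ∀ t, (∀ᵐ ω ∂μ, z t ω ≠ 0) → ∀ A : Set Ω, MeasurableSet[ℱ t] A →
      ∀ S : Set (FF n × ℝ), MeasurableSet S →
      μ (A ∩ W t ⁻¹' S) = μ A * (stdGaussian (FF n)).prod (gaussianReal 0 1) S := by
    rintro t hne A ⟨A', hA', rfl⟩ S hS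
    set f : (Fin (t + 1) → Fin (n + 1) → FF d) × (Fin (n + 1) → FF d) → ℝ≥0∞ := fun p =>
      Set.indicator A' 1 p.1 * Set.indicator S 1 (wn B c κ β u (p.1 (Fin.last t)) p.2) with hf
    have hwm : Measurable fun p : (Fin (t + 1) → Fin (n + 1) → FF d) × (Fin (n + 1) → FF d) =>
        wn B c κ β u (p.1 (Fin.last t)) p.2 := by
      have hpair : Measurable fun p : (Fin (t + 1) → Fin (n + 1) → FF d) ×
          (Fin (n + 1) → FF d) => (p.1 (Fin.last t), p.2) :=
        ((measurable_pi_apply _).comp measurable_fst).prodMk measurable_snd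
      exact (wn_meas B c κ β u).comp hpair
    have hfm : Measurable f :=
      ((measurable_const.indicator hA').comp measurable_fst).mul
        ((measurable_const.indicator hS).comp hwm)
    have h1 := hX.law t f hfm
    have h2 : ∫⁻ ω, f (fun s => X s ω, X (t + 1) ω) ∂μ = μ (H t ⁻¹' A' ∩ W t ⁻¹' S) := by
      have e1 : (fun ω => f (fun s => X s ω, X (t + 1) ω))
          = Set.indicator (H t ⁻¹' A' ∩ W t ⁻¹' S) 1 := by
        funext ω
        have e2 : f (fun s => X s ω, X (t + 1) ω)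
            = Set.indicator A' (1 : (Fin (t + 1) → Fin (n + 1) → FF d) → ℝ≥0∞) (H t ω)
              * Set.indicator S 1 (W t ω) := rfl
        rw [e2]
        by_cases a1 : H t ω ∈ A'
        · by_cases a2 : W t ω ∈ S
          · rw [Set.indicator_of_mem a1, Set.indicator_of_mem a2, Set.indicator_of_mem
              (show ω ∈ H t ⁻¹' A' ∩ W t ⁻¹' S from ⟨a1, a2⟩)]
            simp
          · rw [Set.indicator_of_notMem a2, mul_zero, Set.indicator_of_notMem
              (fun h => a2 h.2)]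
        · rw [Set.indicator_of_notMem a1, zero_mul, Set.indicator_of_notMem
              (fun h => a1 h.1)]
      rw [e1, lintegral_indicator_one ((hHm t hA').inter (hWm t hS))]
    have h3 : ∀ᵐ ω ∂μ, ∫⁻ y, f (fun s => X s ω, y) ∂(stepLaw α β (X t ω))
        = Set.indicator (H t ⁻¹' A')
          (fun _ => (stdGaussian (FF n)).prod (gaussianReal 0 1) S) ω := by
      filter_upwards [hne] with ω hω
      have e1 : ∀ y, f (fun s => X s ω, y)
          = Set.indicator A' (1 : (Fin (t + 1) → Fin (n + 1) → FF d) → ℝ≥0∞) (H t ω)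
          * Set.indicator S 1 (wn B c κ β u (X t ω) y) := fun y => rfl
      simp only [e1]
      have hwy : Measurable fun y => wn B c κ β u (X t ω) y :=
        (wn_meas B c κ β u).comp (measurable_const.prodMk measurable_id)
      have hmm : Measurable fun y =>
          Set.indicator S (1 : FF n × ℝ → ℝ≥0∞) (wn B c κ β u (X t ω) y) :=
        (measurable_one.indicator hS).comp hwy
      rw [lintegral_const_mul _ hmm]
      have e2 : ∫⁻ y, Set.indicator S 1 (wn B c κ β u (X t ω) y) ∂(stepLaw α β (X t ω))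
          = (stdGaussian (FF n)).prod (gaussianReal 0 1) S := by
        have e3 := wn_law B hB hα hβ1 u (X t ω) hω
        rw [← hc, ← hκ] at e3
        have e4 : ∫⁻ y, Set.indicator S (1 : FF n × ℝ → ℝ≥0∞) (wn B c κ β u (X t ω) y)
            ∂(stepLaw α β (X t ω))
            = ∫⁻ w, Set.indicator S 1 w ∂((stepLaw α β (X t ω)).map
              (wn B c κ β u (X t ω))) := by
          exact (lintegral_map (measurable_one.indicator hS) hwy).symm
        rw [e4, e3, lintegral_indicator_one hS]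
      rw [e2]
      by_cases a1 : H t ω ∈ A'
      · rw [Set.indicator_of_mem a1, Set.indicator_of_mem (show ω ∈ H t ⁻¹' A' from a1)]
        simp
      · rw [Set.indicator_of_notMem a1, Set.indicator_of_notMem
          (show ω ∉ H t ⁻¹' A' from a1), zero_mul]
    rw [h2, lintegral_congr_ae h3, lintegral_indicator_const (hHm t hA')] at h1
    rw [h1, mul_comm]
  have hlaw2 : ∀ t, (∀ᵐ ω ∂μ, z t ω ≠ 0) →
      μ.map (W t) = (stdGaussian (FF n)).prod (gaussianReal 0 1) := by
    intro t hne
    ext S hS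
    rw [Measure.map_apply (hWm t) hS]
    have := key t hne Set.univ (@MeasurableSet.univ _ (ℱ t)) S hS
    simpa using this
  have hind2 : ∀ t, (∀ᵐ ω ∂μ, z t ω ≠ 0) →
      Indep (ℱ t) (MeasurableSpace.comap (W t) inferInstance) μ := by
    intro t hne
    rw [Indep_iff]
    rintro A T hA ⟨S, hS, rfl⟩
    rw [key t hne A hA S hS, ← hlaw2 t hne, Measure.map_apply (hWm t) hS]
  have hlaw1 : ∀ t, (∀ᵐ ω ∂μ, z t ω ≠ 0) → μ.map (fun ω => (W t ω).1) = stdGaussian (FF n) := by
    intro t hne
    have h1 : (fun ω => (W t ω).1) = Prod.fst ∘ W t := rfl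
    rw [h1, ← Measure.map_map measurable_fst (hWm t), hlaw2 t hne, Measure.map_fst_prod,
      measure_univ, one_smul]
  have hind1 : ∀ t, (∀ᵐ ω ∂μ, z t ω ≠ 0) →
      Indep (ℱ t) (MeasurableSpace.comap (fun ω => (W t ω).1) inferInstance) μ := by
    intro t hne
    apply indep_of_indep_of_le_right (hind2 t hne)
    have h1 : (fun ω => (W t ω).1) = Prod.fst ∘ W t := rfl
    rw [h1, ← MeasurableSpace.comap_comp]
    exact MeasurableSpace.comap_mono measurable_fst.comap_le
  have hstep : ∀ t ω, z t ω ≠ 0 → z (t + 1) ω = β • z t ω + (c * ‖z t ω‖) • (W t ω).1 := by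
    intro t ω hne
    have h1 : (W t ω).1 = (c * ‖z t ω‖)⁻¹ • (z (t + 1) ω - β • z t ω) := wn_fst B _ _ _ _ _ _
    have h2 : c * ‖z t ω‖ ≠ 0 := mul_ne_zero hc0.ne' (norm_ne_zero_iff.mpr hne)
    rw [h1, smul_smul, mul_inv_cancel₀ h2, one_smul]
    abel
  have hmstep : ∀ t ω, z t ω ≠ 0 → ⟪u, mean (X (t + 1) ω)⟫
      = ⟪u, mean (X t ω)⟫ + (κ * ‖z t ω‖) * (W t ω).2 := by
    intro t ω hne
    have h1 : (W t ω).2 = (κ * ‖z t ω‖)⁻¹ * (⟪u, mean (X (t + 1) ω)⟫ - ⟪u, mean (X t ω)⟫) :=
      wn_snd B _ _ _ _ _ _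
    have h2 : κ * ‖z t ω‖ ≠ 0 := mul_ne_zero hκ0.ne' (norm_ne_zero_iff.mpr hne)
    rw [h1, mul_inv_cancel_left₀ h2]
    ring
  have hne : ∀ t, ∀ᵐ ω ∂μ, z t ω ≠ 0 := by
    intro t
    induction t with
    | zero =>
      filter_upwards [hpd] with ω hω h0
      have hu' : (u : Fin d → ℝ) ≠ 0 := by
        intro h
        apply hu
        ext i
        exact congrFun h i
      have h1 := hω.dotProduct_mulVec_pos hu'
      rw [star_trivial, cov_quad, ← norm_co B hB u (X 0 ω)] at h1
      have h2 : (co B (yv u (X 0 ω))).1 = 0 := h0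
      rw [h2, norm_zero] at h1
      norm_num at h1
    | succ t ih =>
      exact ne_succ (𝒜 := ℱ) (t := t) hn hc0 (hle t) (hzm t) (hWm t).fst (hind1 t ih)
        (hlaw1 t ih) ih (by filter_upwards [ih] with ω hω; exact hstep t ω hω)
  have hdr : Driven μ ℱ β c z (fun t ω => (W t ω).1) :=
    { le := hle
      mono := hmono
      z_meas := hzm
      g_meas := fun t => (hWF t).fst
      indep := fun t => hind1 t (hne t)
      law := fun t => hlaw1 t (hne t)
      ne := hne
      step := fun t => by filter_upwards [hne t] with ω hω; exact hstep t ω hω }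
  have heta : ∀ t, (fun ω => ((W t ω).1, (W t ω).2)) = W t := fun t => by
    funext ω; exact Prod.mk.eta
  have hM : DrivenM μ ℱ β c κ z (fun t ω => (W t ω).1) (fun t ω => ⟪u, mean (X t ω)⟫)
      (fun t ω => (W t ω).2) :=
    { dr := hdr
      m_meas := fun t => (inner_mean_meas u).comp (hXF t t le_rfl)
      γ_meas := fun t => (hWm t).snd
      indep2 := fun t => by rw [heta t]; exact hind2 t (hne t)
      law2 := fun t => by rw [heta t]; exact hlaw2 t (hne t)
      mstep := fun t => by filter_upwards [hne t] with ω hω; exact hmstep t ω hω }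
  exact hM

end final

end Pool.Agent.R815.GC
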