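import Pool.Agent.R815.GC.Driven

/-!
# The top Lyapunov exponent of products of Gaussian matrices
-/

namespace Pool.Agent.R815.GC

open MeasureTheory ProbabilityTheory Filter Topology Finset Matrix
open scoped RealInnerProductSpace ENNReal

/-- the matrix `c G + β I` -/
noncomputable def MG (n : ℕ) (c β : ℝ) (G : Fin n → Fin n → ℝ) : Matrix (Fin n) (Fin n) ℝ :=
  c • Matrix.of G + β • (1 : Matrix (Fin n) (Fin n) ℝ)

/-- the product `M(t) ⋯ M(1)` of the matrices `M(s) = c G(s) + β I` -/
noncomputable def PG (n : ℕ) (c β : ℝ) (G : ℕ → Fin n → Fin n → ℝ) :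
    ℕ → Matrix (Fin n) (Fin n) ℝ
  | 0 => 1
  | t + 1 => MG n c β (G t) * PG n c β G t

/-- `l` is the top Lyapunov exponent of the products `P(t) = M(t) ⋯ M(1)`, where
`M(s) = c G(s) + β I` and the `G(s)` are independent `n × n` matrices with independent standard
normal entries: almost surely `(1/t) log ‖P(t)‖ → l` (operator norm). -/
def IsTopLyapunov (n : ℕ) (c β l : ℝ) : Prop :=
  ∃ (Ω : Type) (_ : MeasurableSpace Ω) (μ : Measure Ω) (_ : IsProbabilityMeasure μ)
    (G : ℕ → Ω → Fin n → Fin n → ℝ),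
    (∀ t, Measurable (G t)) ∧
    (∀ t, μ.map (G t) = Measure.pi fun _ => Measure.pi fun _ => gaussianReal 0 1) ∧
    iIndepFun G μ ∧
    ∀ᵐ ω ∂μ, Tendsto
      (fun t : ℕ => Real.log ‖toEuclideanCLM (n := Fin n) (𝕜 := ℝ) (PG n c β (fun s => G s ω) t)‖
        / t) atTop (𝓝 l)

section

variable {n : ℕ}

/-- `G e` for a matrix `G` -/
noncomputable def ap (G : Fin n → Fin n → ℝ) (e : FF n) : FF n :=
  WithLp.toLp 2 (fun i => ∑ k, G i k * e k)

lemma ap_eq (G : Fin n → Fin n → ℝ) (e : FF n) :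
    toEuclideanCLM (n := Fin n) (𝕜 := ℝ) (Matrix.of G) e = ap G e := by
  unfold ap
  rw [show e = WithLp.toLp 2 (WithLp.ofLp e) from rfl, toEuclideanCLM_toLp]
  rfl

lemma ap_smul (G : Fin n → Fin n → ℝ) (r : ℝ) (e : FF n) : ap G (r • e) = r • ap G e := by
  rw [← ap_eq, ← ap_eq, map_smul]

lemma MG_apply (c β : ℝ) (G : Fin n → Fin n → ℝ) (x : FF n) :
    toEuclideanCLM (n := Fin n) (𝕜 := ℝ) (MG n c β G) x = β • x + c • ap G x := by
  unfold MG
  rw [map_add, map_smul, map_smul, map_one, ContinuousLinearMap.add_apply,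
    ContinuousLinearMap.smul_apply, ContinuousLinearMap.smul_apply,
    ContinuousLinearMap.one_apply, ap_eq, add_comm]

/-- law of `G e` -/
lemma ap_law {e : FF n} (he : ‖e‖ = 1) :
    (Measure.pi fun _ : Fin n => Measure.pi fun _ : Fin n => gaussianReal 0 1).map
      (fun G => ap G e) = stdGaussian (FF n) := by
  set φ : (Fin n → ℝ) → ℝ := fun r => ∑ k, r k * e k with hφ
  have hφm : Measurable φ := by rw [hφ]; fun_prop
  have h1 : (Measure.pi fun _ : Fin n => gaussianReal 0 1).map φ = gaussianReal 0 1 := by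
    have h2 := std_inner (E := FF n) he
    rw [← map_pi_eq_stdGaussian, Measure.map_map (by fun_prop) (by fun_prop)] at h2
    have h5 : φ = (fun g : FF n => ⟪e, g⟫) ∘ WithLp.toLp 2 := by
      funext r
      simp [hφ, PiLp.inner_apply]
    rw [h5]
    exact h2
  have h3 : (fun G : Fin n → Fin n → ℝ => ap G e)
      = (WithLp.toLp 2) ∘ (fun G (i : Fin n) => φ (G i)) := rfl
  have h4 : IsProbabilityMeasure ((Measure.pi fun _ : Fin n => gaussianReal 0 1).map φ) := by
    rw [h1]; infer_instance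
  have h6 : (Measure.pi fun _ : Fin n => Measure.pi fun _ : Fin n => gaussianReal 0 1).map
      (fun G (i : Fin n) => φ (G i)) = Measure.pi fun _ : Fin n => gaussianReal 0 1 := by
    have h7 := Measure.pi_map_pi (μ := fun _ : Fin n => Measure.pi fun _ : Fin n => gaussianReal 0 1)
      (f := fun _ => φ) (fun _ => hφm.aemeasurable)
    rw [h7]
    simp only [h1]
  have hm6 : Measurable (fun (G : Fin n → Fin n → ℝ) (i : Fin n) => φ (G i)) :=
    measurable_pi_lambda _ fun i => hφm.comp (measurable_pi_apply i)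
  rw [h3, ← Measure.map_map (by fun_prop) hm6, h6]
  exact map_pi_eq_stdGaussian

/-- the next state is nonzero -/
lemma ne_succ {Ω : Type} [mΩ : MeasurableSpace Ω] {μ : Measure Ω} [IsProbabilityMeasure μ]
    {𝒜 : ℕ → MeasurableSpace Ω} {b c : ℝ} (hn : 0 < n) (hc : 0 < c) {t : ℕ} {z z' g : Ω → FF n}
    (hle : 𝒜 t ≤ mΩ) (hz : Measurable[𝒜 t] z) (hg : Measurable g)
    (hI : Indep (𝒜 t) (MeasurableSpace.comap g inferInstance) μ)
    (hl : μ.map g = stdGaussian (FF n)) (hne : ∀ᵐ ω ∂μ, z ω ≠ 0)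
    (hs : ∀ᵐ ω ∂μ, z' ω = b • z ω + (c * ‖z ω‖) • g ω) : ∀ᵐ ω ∂μ, z' ω ≠ 0 := by
  set S : Set (FF n × FF n) := {p | b • p.1 + (c * ‖p.1‖) • p.2 = 0} with hS
  have hSm : MeasurableSet S := by
    have h1 : Measurable fun p : FF n × FF n => b • p.1 + (c * ‖p.1‖) • p.2 := by
      have a1 : Measurable fun p : FF n × FF n => ‖p.1‖ := measurable_fst.norm
      fun_prop
    exact h1 (measurableSet_singleton 0)
  have h1 := mix_univ (μ := μ) hle hz hg hI (f := Set.indicator S 1)
    (measurable_const.indicator hSm)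
  have h2 : ∫⁻ ω, ∫⁻ w, (Set.indicator S (1 : FF n × FF n → ℝ≥0∞)) (z ω, w) ∂(μ.map g) ∂μ = 0 := by
    have : ∀ᵐ ω ∂μ, ∫⁻ w, (Set.indicator S (1 : FF n × FF n → ℝ≥0∞)) (z ω, w) ∂(μ.map g) = 0 := by
      filter_upwards [hne] with ω hω
      rw [hl]
      have hcz : c * ‖z ω‖ ≠ 0 := mul_ne_zero hc.ne' (norm_ne_zero_iff.mpr hω)
      have h3 := std_no_atom hn (b • z ω) hcz
      have hm : MeasurableSet {g : FF n | b • z ω + (c * ‖z ω‖) • g = 0} := by
        have h1 : Measurable fun g : FF n => b • z ω + (c * ‖z ω‖) • g := by fun_prop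
        exact h1 (measurableSet_singleton 0)
      rw [← h3, ← lintegral_indicator_one hm]
      rfl
    rw [lintegral_congr_ae this]
    simp
  rw [h2] at h1
  have h4 : ∫⁻ ω, (Set.indicator S (1 : FF n × FF n → ℝ≥0∞)) (z ω, g ω) ∂μ
      = μ {ω | b • z ω + (c * ‖z ω‖) • g ω = 0} := by
    have hm : MeasurableSet {ω | b • z ω + (c * ‖z ω‖) • g ω = 0} :=
      ((hz.mono hle le_rfl).prodMk hg) hSm
    rw [← lintegral_indicator_one hm]
    rfl
  rw [h4] at h1
  have h5 : ∀ᵐ ω ∂μ, b • z ω + (c * ‖z ω‖) • g ω ≠ 0 := by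
    rw [ae_iff]; simpa using h1
  filter_upwards [hs, h5] with ω a1 a2
  rw [a1]; exact a2

/-- law of large numbers for the logarithm of the norm -/
lemma Driven.lln {Ω : Type} [mΩ : MeasurableSpace Ω] {μ : Measure Ω} [IsProbabilityMeasure μ]
    {ℱ : ℕ → MeasurableSpace Ω} {b c : ℝ} {z g : ℕ → Ω → FF n} (h : Driven μ ℱ b c z g)
    (hc : 0 < c) {e0 : FF n} (he : ‖e0‖ = 1) :
    ∀ᵐ ω ∂μ, Tendsto (fun t : ℕ => Real.log ‖z t ω‖ / t) atTop
      (𝓝 (∫ x, x ∂(Xi b c e0))) := by
  have hst := h.steps he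
  have hP := Xi_prob b c e0
  have i1 : Integrable (fun x : ℝ => x) (Xi b c e0) :=
    Integrable.mono' ((integrable_const (1 : ℝ)).add (Xi_pow4 b hc he))
      measurable_id.aestronglyMeasurable
      (Filter.Eventually.of_forall fun a => abs_le_one_add_pow4 a)
  have hint : Integrable (inc b c e0 z g 0) μ := by
    rw [← hst.law 0] at i1
    exact (integrable_map_measure measurable_id.aestronglyMeasurable
      (hst.meas' 0).aemeasurable).mp i1
  have hind : Pairwise (Function.onFun (fun f g => IndepFun f g μ) (inc b c e0 z g)) := by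
    intro i j hij
    rcases lt_or_gt_of_ne hij with hlt | hgt
    · exact hst.indepFun ((hst.meas i).mono (hst.mono hlt) le_rfl)
    · exact (hst.indepFun ((hst.meas j).mono (hst.mono hgt) le_rfl)).symm
  have hid : ∀ i, IdentDistrib (inc b c e0 z g i) (inc b c e0 z g 0) μ μ := fun i =>
    ⟨(hst.meas' i).aemeasurable, (hst.meas' 0).aemeasurable, by rw [hst.law i, hst.law 0]⟩
  have hsl := strong_law_ae_real (inc b c e0 z g) hint hind hid
  have hmean : ∫ ω, inc b c e0 z g 0 ω ∂μ = ∫ x, x ∂(Xi b c e0) := by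
    rw [← hst.law 0]
    exact (integral_map (f := fun x : ℝ => x) (hst.meas' 0).aemeasurable (by fun_prop)).symm
  rw [hmean] at hsl
  filter_upwards [hsl, h.log_norm (e0 := e0)] with ω h1 h2
  have h3 : Tendsto (fun t : ℕ => Real.log ‖z 0 ω‖ / (t : ℝ)) atTop (𝓝 0) :=
    tendsto_const_div_atTop_nhds_zero_nat _
  have h4 := h3.add h1
  rw [zero_add] at h4
  refine h4.congr fun t => ?_
  rw [(h2 t).2, add_div]
  rfl

/-- The top Lyapunov exponent is the mean of the logarithmic increments. -/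
theorem IsTopLyapunov.mean_eq {c β l : ℝ} (hn : 0 < n) (hc : 0 < c)
    (h : IsTopLyapunov n c β l) {e0 : FF n} (he : ‖e0‖ = 1) :
    ∫ x, x ∂(Xi β c e0) = l := by
  obtain ⟨Ω, mΩ, μ, hμ, G, hGm, hGl, hGi, hlim⟩ := h
  -- the filtration
  set ℱ : ℕ → MeasurableSpace Ω := fun t => ⨆ s ∈ Set.Iio t, MeasurableSpace.comap (G s) inferInstance
    with hℱ
  have hle : ∀ t, ℱ t ≤ mΩ := fun t => iSup₂_le fun s _ => (hGm s).comap_le
  have hmono : Monotone ℱ := by
    intro s t hst
    apply iSup₂_le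
    intro r hr
    exact le_iSup₂_of_le r (lt_of_lt_of_le hr hst) le_rfl
  have hGF : ∀ t, Measurable[ℱ (t + 1)] (G t) := by
    intro t
    have h1 : Measurable[MeasurableSpace.comap (G t) inferInstance] (G t) := comap_measurable _
    exact h1.mono (le_iSup₂_of_le t (Nat.lt_succ_self t) le_rfl) le_rfl
  have hGind : ∀ t, Indep (ℱ t) (MeasurableSpace.comap (G t) inferInstance) μ := by
    intro t
    rw [iIndepFun_iff_iIndep] at hGi
    have h1 := indep_iSup_of_disjoint (fun s => (hGm s).comap_le) hGi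
      (S := Set.Iio t) (T := {t}) (by simp)
    rw [_root_.iSup_singleton] at h1
    exact h1
  -- the columns
  set z : Fin n → ℕ → Ω → FF n := fun j t ω =>
    toEuclideanCLM (n := Fin n) (𝕜 := ℝ) (PG n c β (fun s => G s ω) t)
      (EuclideanSpace.single j 1) with hz
  set g : Fin n → ℕ → Ω → FF n := fun j t ω => ap (G t ω) (dir e0 (z j t ω)) with hg
  have hzs : ∀ j t ω, z j (t + 1) ω = β • z j t ω + (c * ‖z j t ω‖) • g j t ω := by
    intro j t ω
    have h1 : z j (t + 1) ω
        = toEuclideanCLM (n := Fin n) (𝕜 := ℝ) (MG n c β (G t ω)) (z j t ω) := by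
      simp only [hz, PG]
      rw [map_mul]
      rfl
    rw [h1, MG_apply]
    by_cases h0 : z j t ω = 0
    · simp only [hg]
      rw [h0, norm_zero, mul_zero, zero_smul]
      have : ap (G t ω) 0 = 0 := by
        have := ap_smul (G t ω) 0 (0 : FF n)
        simpa using this
      rw [this]; simp
    · have h2 : ap (G t ω) (z j t ω) = ‖z j t ω‖ • g j t ω := by
        simp only [hg]
        rw [← ap_smul, norm_smul_dir h0]
      rw [h2, smul_smul]
  have hz0 : ∀ j ω, z j 0 ω = EuclideanSpace.single j 1 := by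
    intro j ω
    simp only [hz, PG]
    rw [map_one]
    rfl
  have hapm : Measurable (fun p : FF n × (Fin n → Fin n → ℝ) => ap p.2 (dir e0 p.1)) := by
    unfold ap
    have h1 : Measurable (fun p : FF n × (Fin n → Fin n → ℝ) => dir e0 p.1) :=
      (dir_meas e0).comp measurable_fst
    have h2 : Measurable (fun p : FF n × (Fin n → Fin n → ℝ) =>
        fun i => ∑ k, p.2 i k * (dir e0 p.1) k) := by
      apply measurable_pi_lambda
      intro i
      apply Finset.measurable_fun_sum
      intro k _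
      have h3 : Measurable (fun p : FF n × (Fin n → Fin n → ℝ) => (dir e0 p.1) k) := by
        have h4 : Measurable (fun x : FF n => x k) := by fun_prop
        exact h4.comp h1
      have h5 : Measurable (fun p : FF n × (Fin n → Fin n → ℝ) => p.2 i k) := by fun_prop
      exact h5.mul h3
    have h6 : Measurable (WithLp.toLp 2 : (Fin n → ℝ) → FF n) := by fun_prop
    exact h6.comp h2
  have hzm : ∀ j t, Measurable[ℱ t] (z j t) := by
    intro j t
    induction t with
    | zero =>
      have : z j 0 = fun _ => EuclideanSpace.single j 1 := by funext ω; exact hz0 j ω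
      rw [this]
      exact measurable_const
    | succ t ih =>
      have h1 : Measurable[ℱ (t + 1)] (z j t) := ih.mono (hmono (Nat.le_succ t)) le_rfl
      have h2 : Measurable[ℱ (t + 1)] (g j t) := hapm.comp (h1.prodMk (hGF t))
      have h3 : Measurable (fun p : FF n × FF n => β • p.1 + (c * ‖p.1‖) • p.2) := by
        have a1 : Measurable fun p : FF n × FF n => ‖p.1‖ := measurable_fst.norm
        fun_prop
      have h4 : z j (t + 1) = (fun p : FF n × FF n => β • p.1 + (c * ‖p.1‖) • p.2) ∘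
          (fun ω => (z j t ω, g j t ω)) := by
        funext ω; exact hzs j t ω
      rw [h4]
      exact h3.comp (h1.prodMk h2)
  have hgF : ∀ j t, Measurable[ℱ (t + 1)] (g j t) := by
    intro j t
    have h1 : Measurable[ℱ (t + 1)] (z j t) := (hzm j t).mono (hmono (Nat.le_succ t)) le_rfl
    exact hapm.comp (h1.prodMk (hGF t))
  have hgm : ∀ j t, Measurable (g j t) := fun j t => (hgF j t).mono (hle _) le_rfl
  have key : ∀ j t (A : Set Ω), MeasurableSet[ℱ t] A → ∀ B : Set (FF n), MeasurableSet B →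
      μ (A ∩ g j t ⁻¹' B) = μ A * stdGaussian (FF n) B := by
    intro j t A hA B hB
    have hfm : Measurable (fun p : FF n × (Fin n → Fin n → ℝ) =>
        Set.indicator B (1 : FF n → ℝ≥0∞) (ap p.2 (dir e0 p.1))) :=
      (measurable_const.indicator hB).comp hapm
    have h1 := mix (μ := μ) (hle t) (hzm j t) (hGm t) (hGind t) hA hfm
    have h2 : ∫⁻ ω in A, Set.indicator B (1 : FF n → ℝ≥0∞) (ap (G t ω) (dir e0 (z j t ω))) ∂μ
        = μ (A ∩ g j t ⁻¹' B) := by
      have : (fun ω => Set.indicator B (1 : FF n → ℝ≥0∞) (ap (G t ω) (dir e0 (z j t ω))))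
          = Set.indicator (g j t ⁻¹' B) 1 := by
        funext ω
        rfl
      rw [this, lintegral_indicator_one (hgm j t hB), Measure.restrict_apply (hgm j t hB),
        Set.inter_comm]
    have h3 : ∀ ω, ∫⁻ w, Set.indicator B (1 : FF n → ℝ≥0∞) (ap w (dir e0 (z j t ω)))
        ∂(μ.map (G t)) = stdGaussian (FF n) B := by
      intro ω
      rw [hGl t, ← ap_law (dir_norm he (z j t ω))]
      have hmm : Measurable fun w : Fin n → Fin n → ℝ => ap w (dir e0 (z j t ω)) :=
        hapm.comp (measurable_const.prodMk measurable_id)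
      rw [Measure.map_apply hmm hB, ← lintegral_indicator_one (hmm hB)]
      apply lintegral_congr
      intro w
      rfl
    simp only at h1
    rw [h2] at h1
    rw [h1]
    simp only [h3]
    rw [setLIntegral_const, mul_comm]
  have hlaw : ∀ j t, μ.map (g j t) = stdGaussian (FF n) := by
    intro j t
    ext B hB
    rw [Measure.map_apply (hgm j t) hB]
    have := key j t Set.univ (@MeasurableSet.univ _ (ℱ t)) B hB
    simpa using this
  have hind : ∀ j t, Indep (ℱ t) (MeasurableSpace.comap (g j t) inferInstance) μ := by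
    intro j t
    rw [Indep_iff]
    rintro A S hA ⟨B, hB, rfl⟩
    rw [key j t A hA B hB, ← hlaw j t, Measure.map_apply (hgm j t) hB]
  have hne : ∀ j t, ∀ᵐ ω ∂μ, z j t ω ≠ 0 := by
    intro j t
    induction t with
    | zero =>
      filter_upwards with ω
      rw [hz0]
      intro h0
      have : ‖(EuclideanSpace.single j (1 : ℝ) : FF n)‖ = 1 := by simp
      rw [h0, norm_zero] at this
      exact zero_ne_one this
    | succ t ih =>
      exact ne_succ (𝒜 := ℱ) (t := t) hn hc (hle t) (hzm j t) (hgm j t) (hind j t) (hlaw j t) ih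
        (Filter.Eventually.of_forall fun ω => hzs j t ω)
  have hdr : ∀ j, Driven μ ℱ β c (z j) (g j) := fun j =>
    ⟨hle, hmono, hzm j, hgF j, hind j, hlaw j, hne j,
      fun t => Filter.Eventually.of_forall fun ω => hzs j t ω⟩
  have hlln : ∀ᵐ ω ∂μ, ∀ j, Tendsto (fun t : ℕ => Real.log ‖z j t ω‖ / t) atTop
      (𝓝 (∫ x, x ∂(Xi β c e0))) := ae_all_iff.mpr fun j => (hdr j).lln hc he
  have hne' : ∀ᵐ ω ∂μ, ∀ j t, z j t ω ≠ 0 :=
    ae_all_iff.mpr fun j => ae_all_iff.mpr fun t => hne j t
  obtain ⟨ω, hω1, hω2, hω3⟩ := (hlim.and (hlln.and hne')).exists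
  set E := ∫ x, x ∂(Xi β c e0) with hE
  set T : ℕ → (FF n →L[ℝ] FF n) := fun t =>
    toEuclideanCLM (n := Fin n) (𝕜 := ℝ) (PG n c β (fun s => G s ω) t) with hT
  have hlow : ∀ j t, ‖z j t ω‖ ≤ ‖T t‖ := by
    intro j t
    have h1 := (T t).le_opNorm (EuclideanSpace.single j 1)
    have h2 : ‖(EuclideanSpace.single j (1 : ℝ) : FF n)‖ = 1 := by simp
    rw [h2, mul_one] at h1
    exact h1
  have hup : ∀ t, ‖T t‖ ≤ ∑ j, ‖z j t ω‖ := by
    intro t
    apply ContinuousLinearMap.opNorm_le_bound _ (Finset.sum_nonneg fun _ _ => norm_nonneg _)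
    intro x
    have h1 : x = ∑ j, x j • (EuclideanSpace.single j (1 : ℝ) : FF n) := by
      have := (EuclideanSpace.basisFun (Fin n) ℝ).sum_repr x
      simpa using this.symm
    have h2 : T t x = ∑ j, x j • z j t ω := by
      conv_lhs => rw [h1]
      rw [map_sum]
      apply Finset.sum_congr rfl
      intro j _
      rw [map_smul]
    rw [h2, Finset.sum_mul]
    refine (norm_sum_le _ _).trans (Finset.sum_le_sum fun j _ => ?_)
    rw [norm_smul, mul_comm]
    apply mul_le_mul_of_nonneg_left _ (norm_nonneg _)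
    exact PiLp.norm_apply_le x j
  apply le_antisymm
  · have j0 : Fin n := ⟨0, hn⟩
    refine le_of_tendsto_of_tendsto (hω2 j0) hω1 ?_
    filter_upwards with t
    apply div_le_div_of_nonneg_right _ (Nat.cast_nonneg t)
    exact Real.log_le_log (norm_pos_iff.mpr (hω3 j0 t)) (hlow j0 t)
  · apply le_of_forall_pos_le_add
    intro ε hε
    have h1 : ∀ᶠ t : ℕ in atTop, ∀ j, Real.log ‖z j t ω‖ / t ≤ E + ε / 2 := by
      rw [eventually_all]
      intro j
      exact (hω2 j).eventually_le_const (by linarith)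
    have h2 : Tendsto (fun t : ℕ => Real.log n / (t : ℝ)) atTop (𝓝 0) :=
      tendsto_const_div_atTop_nhds_zero_nat _
    have h3 : ∀ᶠ t : ℕ in atTop, Real.log n / (t : ℝ) ≤ ε / 2 :=
      h2.eventually_le_const (by linarith)
    refine le_of_tendsto hω1 ?_
    filter_upwards [h1, h3, eventually_ge_atTop 1] with t a1 a2 a3
    have ht : (0 : ℝ) < t := by exact_mod_cast a3
    have hTpos : 0 < ‖T t‖ := lt_of_lt_of_le (norm_pos_iff.mpr (hω3 ⟨0, hn⟩ t)) (hlow ⟨0, hn⟩ t)
    have h4 : ‖T t‖ ≤ n * Real.exp ((E + ε / 2) * t) := by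
      refine (hup t).trans ?_
      calc ∑ j, ‖z j t ω‖ ≤ ∑ _j : Fin n, Real.exp ((E + ε / 2) * t) := by
            apply Finset.sum_le_sum
            intro j _
            rw [← Real.log_le_iff_le_exp (norm_pos_iff.mpr (hω3 j t))]
            have := a1 j
            rwa [div_le_iff₀ ht] at this
        _ = n * Real.exp ((E + ε / 2) * t) := by
            rw [Finset.sum_const, Finset.card_univ, Fintype.card_fin, nsmul_eq_mul]
    have hn' : (0 : ℝ) < n := by exact_mod_cast hn
    have h5 : Real.log ‖T t‖ ≤ Real.log n + (E + ε / 2) * t := by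
      have := Real.log_le_log hTpos h4
      rwa [Real.log_mul hn'.ne' (Real.exp_pos _).ne', Real.log_exp] at this
    have h6 : Real.log ‖T t‖ / t ≤ Real.log n / t + (E + ε / 2) := by
      rw [div_add' _ _ _ ht.ne']
      exact div_le_div_of_nonneg_right h5 ht.le
    show Real.log ‖T t‖ / t ≤ E + ε
    linarith

end

end Pool.Agent.R815.GC
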