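import Pool.Agent.R815.GC.Driven

/-!
# Conditional Gaussianity of the mean and its divergence
-/

namespace Pool.Agent.R815.GC

open MeasureTheory ProbabilityTheory Filter Topology Finset
open scoped RealInnerProductSpace ENNReal

/-- sum of two independent centred Gaussian variables -/
lemma gauss_sum (a b : ℝ) {h : ℝ → ℝ≥0∞} (hh : Measurable h) :
    ∫⁻ y, ∫⁻ x, h (a * y + b * x) ∂(gaussianReal 0 1) ∂(gaussianReal 0 1)
      = ∫⁻ y, h (√(a ^ 2 + b ^ 2) * y) ∂(gaussianReal 0 1) := by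
  set N := gaussianReal 0 1 with hN
  have hX : (N.prod N).map (fun p : ℝ × ℝ => a * p.1) = gaussianReal 0 (.mk (a ^ 2) (sq_nonneg _)) := by
    have : (fun p : ℝ × ℝ => a * p.1) = (fun x => a * x) ∘ Prod.fst := rfl
    rw [this, ← Measure.map_map (by fun_prop) measurable_fst, Measure.map_fst_prod, measure_univ,
      one_smul, hN, gaussianReal_map_const_mul]
    simp
  have hY : (N.prod N).map (fun p : ℝ × ℝ => b * p.2) = gaussianReal 0 (.mk (b ^ 2) (sq_nonneg _)) := by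
    have : (fun p : ℝ × ℝ => b * p.2) = (fun x => b * x) ∘ Prod.snd := rfl
    rw [this, ← Measure.map_map (by fun_prop) measurable_snd, Measure.map_snd_prod, measure_univ,
      one_smul, hN, gaussianReal_map_const_mul]
    simp
  have hI : IndepFun (fun p : ℝ × ℝ => a * p.1) (fun p : ℝ × ℝ => b * p.2) (N.prod N) :=
    indepFun_prod (X := fun x : ℝ => a * x) (Y := fun x : ℝ => b * x) (by fun_prop) (by fun_prop)
  have hS := gaussianReal_add_gaussianReal_of_indepFun hI hX hY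
  have hR : N.map (fun y => √(a ^ 2 + b ^ 2) * y)
      = gaussianReal 0 (.mk (a ^ 2 + b ^ 2) (by positivity)) := by
    rw [hN, gaussianReal_map_const_mul]
    have : √(a ^ 2 + b ^ 2) ^ 2 = a ^ 2 + b ^ 2 := Real.sq_sqrt (by positivity)
    simp only [mul_zero, this, mul_one]
  have hEq : (N.prod N).map ((fun p : ℝ × ℝ => a * p.1) + fun p : ℝ × ℝ => b * p.2)
      = N.map (fun y => √(a ^ 2 + b ^ 2) * y) := by
    rw [hR, hS]
    simp only [add_zero]
    rfl
  have hm : Measurable ((fun p : ℝ × ℝ => a * p.1) + fun p : ℝ × ℝ => b * p.2) := by fun_prop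
  calc ∫⁻ y, ∫⁻ x, h (a * y + b * x) ∂N ∂N
      = ∫⁻ p, h (((fun p : ℝ × ℝ => a * p.1) + fun p : ℝ × ℝ => b * p.2) p) ∂(N.prod N) := by
        rw [lintegral_prod (fun p => h (((fun p : ℝ × ℝ => a * p.1) + fun p : ℝ × ℝ => b * p.2) p))
          (hh.comp hm).aemeasurable]
        rfl
    _ = ∫⁻ x, h x ∂((N.prod N).map ((fun p : ℝ × ℝ => a * p.1) + fun p : ℝ × ℝ => b * p.2)) :=
        (lintegral_map hh hm).symm
    _ = _ := by rw [hEq, lintegral_map hh (by fun_prop)]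

/-- a driven process together with its mean -/
structure DrivenM {n : ℕ} {Ω : Type} [mΩ : MeasurableSpace Ω] (μ : Measure Ω)
    (ℱ : ℕ → MeasurableSpace Ω) (b c κ : ℝ) (z g : ℕ → Ω → FF n) (m γ : ℕ → Ω → ℝ) : Prop where
  dr : Driven μ ℱ b c z g
  m_meas : ∀ t, Measurable[ℱ t] (m t)
  γ_meas : ∀ t, Measurable (γ t)
  indep2 : ∀ t, Indep (ℱ t) (MeasurableSpace.comap (fun ω => (g t ω, γ t ω)) inferInstance) μ
  law2 : ∀ t, μ.map (fun ω => (g t ω, γ t ω)) = (stdGaussian (FF n)).prod (gaussianReal 0 1)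
  mstep : ∀ t, ∀ᵐ ω ∂μ, m (t + 1) ω = m t ω + (κ * ‖z t ω‖) * γ t ω

section mixture

variable {n : ℕ} {Ω : Type} [mΩ : MeasurableSpace Ω] {μ : Measure Ω} [IsProbabilityMeasure μ]
  {ℱ : ℕ → MeasurableSpace Ω} {b c κ : ℝ} {z g : ℕ → Ω → FF n} {m γ : ℕ → Ω → ℝ}

/-- conditional variance -/
noncomputable def VV (κ : ℝ) (z : ℕ → Ω → FF n) (t : ℕ) (ω : Ω) : ℝ :=
  ∑ s ∈ range t, (κ * ‖z s ω‖) ^ 2

omit mΩ in
lemma VV_nonneg (t : ℕ) (ω : Ω) : 0 ≤ VV κ z t ω := Finset.sum_nonneg fun _ _ => sq_nonneg _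

omit mΩ in
lemma VV_succ (t : ℕ) (ω : Ω) : VV κ z (t + 1) ω = VV κ z t ω + (κ * ‖z t ω‖) ^ 2 := by
  unfold VV; rw [Finset.sum_range_succ]

lemma VV_meas (h : Driven μ ℱ b c z g) (t : ℕ) : Measurable[ℱ t] (VV κ z t) := by
  unfold VV
  apply Finset.measurable_fun_sum
  intro s hs
  have h1 : Measurable[ℱ t] (z s) :=
    (h.z_meas s).mono (h.mono (Finset.mem_range.mp hs).le) le_rfl
  have h2 : Measurable (fun x : FF n => (κ * ‖x‖) ^ 2) := by fun_prop
  exact h2.comp h1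

/-- the state used in the mixture formula -/
abbrev SState (n : ℕ) : Type := FF n × ℝ × ℝ

/-- Given the other coordinates the mean is Gaussian. -/
theorem DrivenM.mixture (h : DrivenM μ ℱ b c κ z g m γ) (t : ℕ) :
    ∀ f : SState n × ℝ → ℝ≥0∞, Measurable f →
      ∫⁻ ω, f ((z t ω, VV κ z t ω, m 0 ω), m t ω) ∂μ
        = ∫⁻ ω, ∫⁻ y, f ((z t ω, VV κ z t ω, m 0 ω), m 0 ω + √(VV κ z t ω) * y)
            ∂(gaussianReal 0 1) ∂μ := by
  have hg : ∀ t, Measurable (g t) := fun t => (h.dr.g_meas t).mono (h.dr.le _) le_rfl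
  induction t with
  | zero =>
    intro f hf
    apply lintegral_congr
    intro ω
    have : VV κ z 0 ω = 0 := by simp [VV]
    simp [this]
  | succ t ih =>
    intro f hf
    set N := gaussianReal 0 1 with hN
    have hW : Measurable (fun ω => (g t ω, γ t ω)) := (hg t).prodMk (h.γ_meas t)
    have hm0 : Measurable[ℱ t] (m 0) := (h.m_meas 0).mono (h.dr.mono (Nat.zero_le t)) le_rfl
    -- left-hand side
    have hY : Measurable[ℱ t] (fun ω => ((z t ω, VV κ z t ω, m 0 ω), m t ω)) :=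
      ((h.dr.z_meas t).prodMk ((VV_meas h.dr t).prodMk hm0)).prodMk (h.m_meas t)
    set U : (SState n × ℝ) × (FF n × ℝ) → SState n × ℝ := fun p =>
      ((b • p.1.1.1 + (c * ‖p.1.1.1‖) • p.2.1, p.1.1.2.1 + (κ * ‖p.1.1.1‖) ^ 2, p.1.1.2.2),
        p.1.2 + (κ * ‖p.1.1.1‖) * p.2.2) with hU
    have hUm : Measurable U := by
      rw [hU]
      have a1 : Measurable fun p : (SState n × ℝ) × (FF n × ℝ) => p.1.1.1 := by fun_prop
      have a2 : Measurable fun p : (SState n × ℝ) × (FF n × ℝ) => p.2.1 := by fun_prop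
      have a3 : Measurable fun p : (SState n × ℝ) × (FF n × ℝ) => ‖p.1.1.1‖ := a1.norm
      fun_prop
    have hL : ∫⁻ ω, f ((z (t + 1) ω, VV κ z (t + 1) ω, m 0 ω), m (t + 1) ω) ∂μ
        = ∫⁻ ω, ∫⁻ w, f (U (((z t ω, VV κ z t ω, m 0 ω), m t ω), w))
          ∂((stdGaussian (FF n)).prod N) ∂μ := by
      have h1 : ∫⁻ ω, f ((z (t + 1) ω, VV κ z (t + 1) ω, m 0 ω), m (t + 1) ω) ∂μ
          = ∫⁻ ω, f (U (((z t ω, VV κ z t ω, m 0 ω), m t ω), (g t ω, γ t ω))) ∂μ := by
        apply lintegral_congr_ae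
        filter_upwards [h.dr.step t, h.mstep t] with ω a1 a2
        rw [a1, a2, VV_succ]
      rw [h1]
      have h2 := mix_univ (μ := μ) (h.dr.le t) hY hW (h.indep2 t) (hf.comp hUm)
      rw [h.law2 t] at h2
      exact h2
    rw [hL]
    -- apply the induction hypothesis
    set Φ : SState n × ℝ → ℝ≥0∞ := fun q => ∫⁻ w, f (U (q, w)) ∂((stdGaussian (FF n)).prod N)
      with hΦ
    have hΦm : Measurable Φ := Measurable.lintegral_prod_right' (hf.comp hUm)
    have h3 := ih Φ hΦm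
    rw [show (∫⁻ ω, ∫⁻ w, f (U (((z t ω, VV κ z t ω, m 0 ω), m t ω), w))
          ∂((stdGaussian (FF n)).prod N) ∂μ)
        = ∫⁻ ω, Φ ((z t ω, VV κ z t ω, m 0 ω), m t ω) ∂μ from rfl, h3]
    -- right-hand side
    set U' : SState n × (FF n × ℝ) → SState n × ℝ := fun p =>
      ((b • p.1.1 + (c * ‖p.1.1‖) • p.2.1, p.1.2.1 + (κ * ‖p.1.1‖) ^ 2, p.1.2.2),
        p.1.2.2 + √(p.1.2.1 + (κ * ‖p.1.1‖) ^ 2) * p.2.2) with hU'
    have hUm' : Measurable U' := by
      rw [hU']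
      have a1 : Measurable fun p : SState n × (FF n × ℝ) => p.1.1 := by fun_prop
      have a2 : Measurable fun p : SState n × (FF n × ℝ) => p.2.1 := by fun_prop
      have a3 : Measurable fun p : SState n × (FF n × ℝ) => ‖p.1.1‖ := a1.norm
      fun_prop
    set G1 : SState n × FF n → ℝ≥0∞ := fun p => ∫⁻ y, f (U' (p.1, (p.2, y))) ∂N with hG1
    have hG1m : Measurable G1 := by
      have : Measurable fun q : (SState n × FF n) × ℝ => f (U' (q.1.1, (q.1.2, q.2))) :=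
        (hf.comp hUm').comp (by fun_prop)
      exact Measurable.lintegral_prod_right' this
    have hR : ∫⁻ ω, ∫⁻ y, f ((z (t + 1) ω, VV κ z (t + 1) ω, m 0 ω),
          m 0 ω + √(VV κ z (t + 1) ω) * y) ∂N ∂μ
        = ∫⁻ ω, ∫⁻ x, G1 ((z t ω, VV κ z t ω, m 0 ω), x) ∂(stdGaussian (FF n)) ∂μ := by
      have h1 : ∫⁻ ω, ∫⁻ y, f ((z (t + 1) ω, VV κ z (t + 1) ω, m 0 ω),
            m 0 ω + √(VV κ z (t + 1) ω) * y) ∂N ∂μ
          = ∫⁻ ω, G1 ((z t ω, VV κ z t ω, m 0 ω), g t ω) ∂μ := by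
        apply lintegral_congr_ae
        filter_upwards [h.dr.step t] with ω a1
        rw [a1, VV_succ]
      rw [h1]
      have hY2 : Measurable[ℱ t] (fun ω => (z t ω, VV κ z t ω, m 0 ω)) :=
        (h.dr.z_meas t).prodMk ((VV_meas h.dr t).prodMk hm0)
      have h2 := mix_univ (μ := μ) (h.dr.le t) hY2 (hg t) (h.dr.indep t) hG1m
      rw [h.dr.law t] at h2
      exact h2
    rw [hR]
    apply lintegral_congr
    intro ω
    -- inner identity
    have e1 : ∀ y, Φ ((z t ω, VV κ z t ω, m 0 ω), m 0 ω + √(VV κ z t ω) * y)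
        = ∫⁻ x, ∫⁻ w, f (U (((z t ω, VV κ z t ω, m 0 ω), m 0 ω + √(VV κ z t ω) * y), (x, w)))
          ∂N ∂(stdGaussian (FF n)) := by
      intro y
      rw [hΦ]
      simp only
      have hmm : Measurable fun w : FF n × ℝ =>
          f (U (((z t ω, VV κ z t ω, m 0 ω), m 0 ω + √(VV κ z t ω) * y), w)) :=
        (hf.comp hUm).comp (by fun_prop)
      rw [lintegral_prod _ hmm.aemeasurable]
    simp only [e1]
    have hsw : Measurable (Function.uncurry fun (y : ℝ) (x : FF n) => ∫⁻ w,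
        f (U (((z t ω, VV κ z t ω, m 0 ω), m 0 ω + √(VV κ z t ω) * y), (x, w))) ∂N) := by
      have hq : Measurable fun q : (ℝ × FF n) × ℝ =>
          f (U (((z t ω, VV κ z t ω, m 0 ω), m 0 ω + √(VV κ z t ω) * q.1.1), (q.1.2, q.2))) :=
        (hf.comp hUm).comp (by fun_prop)
      exact Measurable.lintegral_prod_right' hq
    rw [lintegral_lintegral_swap hsw.aemeasurable]
    apply lintegral_congr
    intro x
    have hh : Measurable fun s : ℝ => f ((b • z t ω + (c * ‖z t ω‖) • x,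
        VV κ z t ω + (κ * ‖z t ω‖) ^ 2, m 0 ω), m 0 ω + s) := hf.comp (by fun_prop)
    have h5 := gauss_sum (√(VV κ z t ω)) (κ * ‖z t ω‖) hh
    have h6 : √(VV κ z t ω) ^ 2 = VV κ z t ω := Real.sq_sqrt (VV_nonneg t ω)
    rw [h6] at h5
    rw [hG1, hU, hU']
    simp only
    rw [← h5]
    apply lintegral_congr
    intro y
    apply lintegral_congr
    intro w
    rw [add_assoc]

end mixture

end Pool.Agent.R815.GC
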