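import Pool.Agent.R815.GC.Diverge
import Pool.Agent.R815.GC.Lyap

/-!
# The Gaussian consensus process
-/

namespace Pool.Agent.R815.GC

open MeasureTheory ProbabilityTheory Filter Topology Finset Matrix
open scoped RealInnerProductSpace ENNReal

section defs

variable {N d : ℕ}

/-- The mean of the rows. -/
noncomputable def mean (x : Fin N → EuclideanSpace ℝ (Fin d)) : EuclideanSpace ℝ (Fin d) :=
  (N : ℝ)⁻¹ • ∑ k, x k

/-- The covariance matrix `(1/N) ∑ (x_k - mean)^T (x_k - mean)`. -/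
noncomputable def cov (x : Fin N → EuclideanSpace ℝ (Fin d)) : Matrix (Fin d) (Fin d) ℝ :=
  Matrix.of fun a b => (N : ℝ)⁻¹ * ∑ k, (x k - mean x) a * (x k - mean x) b

/-- Conditional law of the next state: independent rows, the `i`-th one being multivariate
Gaussian with mean `β x_i + (1-β) mean` and covariance `ρ cov`, `ρ = α (1-β)^2`. -/
noncomputable def stepLaw (α β : ℝ) (x : Fin N → EuclideanSpace ℝ (Fin d)) :
    Measure (Fin N → EuclideanSpace ℝ (Fin d)) :=
  Measure.pi fun i =>
    multivariateGaussian (β • x i + (1 - β) • mean x) ((α * (1 - β) ^ 2) • cov x)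

/-- The Gaussian consensus process: given the past `X 0, ..., X t`, the next state `X (t+1)` has
law `stepLaw α β (X t)`. -/
structure IsConsensus (α β : ℝ) {Ω : Type} [MeasurableSpace Ω] (μ : Measure Ω)
    (X : ℕ → Ω → Fin N → EuclideanSpace ℝ (Fin d)) : Prop where
  meas : ∀ t, Measurable (X t)
  law : ∀ (t : ℕ) (f : (Fin (t + 1) → Fin N → EuclideanSpace ℝ (Fin d)) ×
      (Fin N → EuclideanSpace ℝ (Fin d)) → ℝ≥0∞), Measurable f →
    ∫⁻ ω, f (fun s => X s ω, X (t + 1) ω) ∂μ
      = ∫⁻ ω, ∫⁻ y, f (fun s => X s ω, y) ∂(stepLaw α β (X t ω)) ∂μ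

end defs

section lin

variable {n d : ℕ}

/-- the normalised vector of ones -/
noncomputable def nh (n : ℕ) : FF (n + 1) := WithLp.toLp 2 fun _ => (√((n : ℝ) + 1))⁻¹

lemma sqrt_pos' (n : ℕ) : 0 < √((n : ℝ) + 1) := Real.sqrt_pos.mpr (by positivity)

lemma nh_norm (n : ℕ) : ‖nh n‖ = 1 := by
  rw [EuclideanSpace.norm_eq]
  have h1 : ∑ i : Fin (n + 1), ‖(nh n) i‖ ^ 2 = 1 := by
    have h2 : ∀ i : Fin (n + 1), ‖(nh n) i‖ ^ 2 = ((n : ℝ) + 1)⁻¹ := by
      intro i
      have : (nh n) i = (√((n : ℝ) + 1))⁻¹ := rfl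
      rw [this, Real.norm_eq_abs, sq_abs, inv_pow, Real.sq_sqrt (by positivity)]
    simp only [h2]
    rw [Finset.sum_const, Finset.card_univ, Fintype.card_fin, nsmul_eq_mul]
    push_cast
    field_simp
  rw [h1, Real.sqrt_one]

lemma exists_basis (n : ℕ) : ∃ B : OrthonormalBasis (Fin (n + 1)) ℝ (FF (n + 1)), B 0 = nh n := by
  have h1 : Orthonormal ℝ (({0} : Set (Fin (n + 1))).domRestrict
      (fun _ : Fin (n + 1) => nh n)) := by
    constructor
    · intro i
      exact nh_norm n
    · intro i j hij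
      exact absurd (Subsingleton.elim i j) hij
  obtain ⟨B, hB⟩ := h1.exists_orthonormalBasis_extension_of_card_eq
    (by simp)
  exact ⟨B, hB 0 rfl⟩

variable (B : OrthonormalBasis (Fin (n + 1)) ℝ (FF (n + 1)))

/-- coordinates of a vector -/
noncomputable def co (v : FF (n + 1)) : FF n × ℝ :=
  (WithLp.toLp 2 fun i : Fin n => ⟪B i.succ, v⟫, ⟪B 0, v⟫)

lemma co_meas : Measurable (co B) := by
  unfold co
  have h1 : Measurable (fun v : FF (n + 1) => fun i : Fin n => ⟪B i.succ, v⟫) :=
    measurable_pi_lambda _ fun i => by fun_prop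
  have h2 : Measurable (WithLp.toLp 2 : (Fin n → ℝ) → FF n) := by fun_prop
  have h3 : Measurable (fun v : FF (n + 1) => ⟪B 0, v⟫) := by fun_prop
  exact (h2.comp h1).prodMk h3

/-- law of the coordinates of a standard Gaussian vector -/
lemma co_law : (stdGaussian (FF (n + 1))).map (co B)
    = (stdGaussian (FF n)).prod (gaussianReal 0 1) := by
  set Q : FF (n + 1) → FF n × ℝ := fun v => (WithLp.toLp 2 fun i : Fin n => v i.succ, v 0) with hQ
  have hQm : Measurable Q := by
    have h1 : Measurable (fun v : FF (n + 1) => fun i : Fin n => v i.succ) :=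
      measurable_pi_lambda _ fun i => by fun_prop
    have h2 : Measurable (WithLp.toLp 2 : (Fin n → ℝ) → FF n) := by fun_prop
    have h3 : Measurable (fun v : FF (n + 1) => v 0) := by fun_prop
    exact (h2.comp h1).prodMk h3
  have h1 : co B = Q ∘ B.repr := by
    funext v
    simp only [co, hQ, Function.comp_apply, B.repr_apply_apply]
  have h2 : (stdGaussian (FF (n + 1))).map B.repr = stdGaussian (FF (n + 1)) :=
    stdGaussian_map B.repr
  rw [h1, ← Measure.map_map hQm B.repr.continuous.measurable, h2, ← map_pi_eq_stdGaussian,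
    Measure.map_map hQm (by fun_prop)]
  have h3 := (measurePreserving_piFinSuccAbove (fun _ : Fin (n + 1) => gaussianReal 0 1) 0).map_eq
  have h4 : Q ∘ (WithLp.toLp 2)
      = (fun p : ℝ × (Fin n → ℝ) => ((WithLp.toLp 2 p.2 : FF n), p.1)) ∘
        (MeasurableEquiv.piFinSuccAbove (fun _ : Fin (n + 1) => ℝ) 0) := by
    funext g
    rfl
  have h5 : Measurable (fun p : ℝ × (Fin n → ℝ) => ((WithLp.toLp 2 p.2 : FF n), p.1)) := by
    fun_prop
  rw [h4, ← Measure.map_map h5 (MeasurableEquiv.measurable _), h3]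
  have h6 : (fun p : ℝ × (Fin n → ℝ) => ((WithLp.toLp 2 p.2 : FF n), p.1))
      = Prod.swap ∘ (Prod.map (id : ℝ → ℝ) (WithLp.toLp 2 : (Fin n → ℝ) → FF n)) := rfl
  rw [h6, ← Measure.map_map measurable_swap (by fun_prop),
    ← Measure.map_prod_map _ _ measurable_id (by fun_prop), Measure.map_id,
    map_pi_eq_stdGaussian, Measure.prod_swap]

end lin

end Pool.Agent.R815.GC
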