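import Pool.Agent.R815.GC.Model

/-!
# Projections of the Gaussian consensus process
-/

namespace Pool.Agent.R815.GC

open MeasureTheory ProbabilityTheory Filter Topology Finset Matrix
open scoped RealInnerProductSpace ENNReal

section law1

variable {d : ℕ}

/-- a linear functional of a multivariate Gaussian vector -/
lemma mg_inner (u m : FF d) {S : Matrix (Fin d) (Fin d) ℝ} (hS : S.PosSemidef) {s : ℝ}
    (hs : s ^ 2 = u ⬝ᵥ S *ᵥ u) :
    (multivariateGaussian m S).map (fun x => ⟪u, x⟫)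
      = (gaussianReal 0 1).map (fun r => ⟪u, m⟫ + s * r) := by
  have h1 : (fun x : FF d => ⟪u, x⟫) = innerSL ℝ u := rfl
  rw [h1, IsGaussian.map_eq_gaussianReal]
  have h2 : ∫ x, (innerSL ℝ u) x ∂(multivariateGaussian m S) = ⟪u, m⟫ := by
    rw [ContinuousLinearMap.integral_comp_id_comm, integral_id_multivariateGaussian]
    · rfl
    · exact IsGaussian.integrable_id
  have h3 : Var[(innerSL ℝ u); multivariateGaussian m S] = s ^ 2 := by
    have h4 := covarianceBilin_self (μ := multivariateGaussian m S) IsGaussian.memLp_two_id u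
    have h5 := covarianceBilin_multivariateGaussian (μ := m) hS u u
    rw [hs, ← h5, h4]
    rfl
  rw [h2, h3]
  have h6 : (fun r : ℝ => ⟪u, m⟫ + s * r) = (fun r => ⟪u, m⟫ + r) ∘ (fun r => s * r) := rfl
  rw [h6, ← Measure.map_map (by fun_prop) (by fun_prop), gaussianReal_map_const_mul,
    gaussianReal_map_const_add]
  congr 1
  · ring
  · rw [mul_one]
    apply NNReal.coe_injective
    rw [Real.coe_toNNReal _ (sq_nonneg s)]
    rfl

end law1

section proj

variable {n d : ℕ}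

/-- the projected configuration -/
noncomputable def yv (u : FF d) (x : Fin (n + 1) → FF d) : FF (n + 1) :=
  WithLp.toLp 2 fun i => ⟪u, x i⟫

variable (B : OrthonormalBasis (Fin (n + 1)) ℝ (FF (n + 1)))

lemma cast_succ' : (((n + 1 : ℕ) : ℝ)) = (n : ℝ) + 1 := by push_cast; ring

lemma inner_mean (u : FF d) (x : Fin (n + 1) → FF d) :
    ⟪u, mean x⟫ = ((n : ℝ) + 1)⁻¹ * ∑ i, ⟪u, x i⟫ := by
  unfold mean
  rw [inner_smul_right, inner_sum, cast_succ']

lemma inner_nh (v : FF (n + 1)) : ⟪nh n, v⟫ = (√((n : ℝ) + 1))⁻¹ * ∑ i, v i := by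
  unfold nh
  rw [Finset.mul_sum]
  simp [PiLp.inner_apply, mul_comm]

lemma co_snd (hB : B 0 = nh n) (u : FF d) (x : Fin (n + 1) → FF d) :
    (co B (yv u x)).2 = √((n : ℝ) + 1) * ⟪u, mean x⟫ := by
  have h1 : (co B (yv u x)).2 = ⟪B 0, yv u x⟫ := rfl
  rw [h1, hB, inner_nh, inner_mean]
  have h2 : √((n : ℝ) + 1) * √((n : ℝ) + 1) = (n : ℝ) + 1 := Real.mul_self_sqrt (by positivity)
  have h3 := sqrt_pos' n
  have h4 : ((n : ℝ) + 1)⁻¹ = (√((n : ℝ) + 1))⁻¹ * (√((n : ℝ) + 1))⁻¹ := by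
    rw [← mul_inv, h2]
  rw [h4]
  field_simp
  rfl

/-- every projected row is the mean plus a linear function of the first coordinates -/
lemma row_eq (hB : B 0 = nh n) (u : FF d) (x : Fin (n + 1) → FF d) (i : Fin (n + 1)) :
    ⟪u, x i⟫ = ⟪u, mean x⟫ + ∑ j : Fin n, (co B (yv u x)).1 j * (B j.succ) i := by
  have h1 := B.sum_repr (yv u x)
  have h2 : ⟪u, x i⟫ = (∑ j, B.repr (yv u x) j • B j) i := by rw [h1]; rfl
  rw [h2, Fin.sum_univ_succ]
  have h3 : (B.repr (yv u x) 0 • B 0 + ∑ j : Fin n, B.repr (yv u x) j.succ • B j.succ) i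
      = B.repr (yv u x) 0 * (B 0) i + ∑ j : Fin n, B.repr (yv u x) j.succ * (B j.succ) i := by
    simp
  rw [h3]
  congr 1
  · rw [B.repr_apply_apply]
    have h4 : ⟪B 0, yv u x⟫ = √((n : ℝ) + 1) * ⟪u, mean x⟫ := co_snd B hB u x
    rw [h4, hB]
    have h5 : (nh n) i = (√((n : ℝ) + 1))⁻¹ := rfl
    rw [h5]
    have := sqrt_pos' n
    field_simp
  · apply Finset.sum_congr rfl
    intro j _
    rw [B.repr_apply_apply]
    rfl

/-- the norm of the first coordinates -/
lemma norm_co (hB : B 0 = nh n) (u : FF d) (x : Fin (n + 1) → FF d) :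
    ‖(co B (yv u x)).1‖ ^ 2 = ∑ i, ⟪u, x i - mean x⟫ ^ 2 := by
  have h1 := B.sum_sq_inner_right (yv u x)
  rw [Fin.sum_univ_succ] at h1
  have h2 : ‖(co B (yv u x)).1‖ ^ 2 = ∑ j : Fin n, ⟪B j.succ, yv u x⟫ ^ 2 := by
    rw [EuclideanSpace.real_norm_sq_eq]
    rfl
  have h3 : ‖yv u x‖ ^ 2 = ∑ i, ⟪u, x i⟫ ^ 2 := by
    rw [EuclideanSpace.real_norm_sq_eq]
    rfl
  have h4 : ⟪B 0, yv u x⟫ = √((n : ℝ) + 1) * ⟪u, mean x⟫ := co_snd B hB u x
  rw [h4, h3, mul_pow, Real.sq_sqrt (by positivity)] at h1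
  have h5 : ∑ i, ⟪u, x i - mean x⟫ ^ 2
      = ∑ i, ⟪u, x i⟫ ^ 2 - ((n : ℝ) + 1) * ⟪u, mean x⟫ ^ 2 := by
    have e1 : ∀ i, ⟪u, x i - mean x⟫ ^ 2
        = ⟪u, x i⟫ ^ 2 - 2 * ⟪u, mean x⟫ * ⟪u, x i⟫ + ⟪u, mean x⟫ ^ 2 := by
      intro i
      rw [inner_sub_right]; ring
    simp only [e1]
    rw [Finset.sum_add_distrib, Finset.sum_sub_distrib, ← Finset.mul_sum, Finset.sum_const,
      Finset.card_univ, Fintype.card_fin, nsmul_eq_mul]
    have e2 : ∑ i, ⟪u, x i⟫ = ((n : ℝ) + 1) * ⟪u, mean x⟫ := by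
      rw [inner_mean]
      have : (n : ℝ) + 1 ≠ 0 := by positivity
      field_simp
    rw [e2]
    push_cast
    ring
  rw [h2, h5]
  linarith

lemma cov_quad {N : ℕ} (u : FF d) (x : Fin N → FF d) :
    u ⬝ᵥ (cov x) *ᵥ u = (N : ℝ)⁻¹ * ∑ k, ⟪u, x k - mean x⟫ ^ 2 := by
  have h1 : ∀ k, ⟪u, x k - mean x⟫ = ∑ a, u a * (x k - mean x) a := by
    intro k
    simp [PiLp.inner_apply, mul_comm]
  simp only [h1, sq]
  have h2 : u ⬝ᵥ (cov x) *ᵥ u = ∑ a, ∑ b, ∑ k, (N : ℝ)⁻¹ *
      ((u a * (x k - mean x) a) * (u b * (x k - mean x) b)) := by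
    unfold cov
    simp only [dotProduct, mulVec, Matrix.of_apply]
    apply Finset.sum_congr rfl
    intro a _
    rw [Finset.mul_sum]
    apply Finset.sum_congr rfl
    intro b _
    rw [Finset.mul_sum, Finset.sum_mul, Finset.mul_sum]
    apply Finset.sum_congr rfl
    intro k _
    ring
  have h3 : ∀ a, ∑ b, ∑ k, (N : ℝ)⁻¹ * ((u a * (x k - mean x) a) * (u b * (x k - mean x) b))
      = ∑ k, ∑ b, (N : ℝ)⁻¹ * ((u a * (x k - mean x) a) * (u b * (x k - mean x) b)) :=
    fun a => Finset.sum_comm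
  rw [h2]
  simp only [h3]
  rw [Finset.sum_comm, Finset.mul_sum]
  apply Finset.sum_congr rfl
  intro k _
  rw [Finset.sum_mul_sum, Finset.mul_sum]
  apply Finset.sum_congr rfl
  intro a _
  rw [Finset.mul_sum]

lemma cov_psd {N : ℕ} (x : Fin N → FF d) : (cov x).PosSemidef := by
  set A : Matrix (Fin N) (Fin d) ℝ := Matrix.of fun k a => (x k - mean x) a with hA
  have h1 : cov x = (N : ℝ)⁻¹ • (Aᴴ * A) := by
    ext a b
    simp [cov, hA, Matrix.mul_apply]
  rw [h1]
  exact (posSemidef_conjTranspose_mul_self A).smul (by positivity)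

/-- noise recovered from two consecutive configurations -/
noncomputable def wn (c κ β : ℝ) (u : FF d) (x x' : Fin (n + 1) → FF d) : FF n × ℝ :=
  ((c * ‖(co B (yv u x)).1‖)⁻¹ • ((co B (yv u x')).1 - β • (co B (yv u x)).1),
    (κ * ‖(co B (yv u x)).1‖)⁻¹ * (⟪u, mean x'⟫ - ⟪u, mean x⟫))

lemma co_lin (v w : FF (n + 1)) (s : ℝ) :
    co B (v + s • w) = ((co B v).1 + s • (co B w).1, (co B v).2 + s * (co B w).2) := by
  unfold co
  ext i
  · simp only [inner_add_right, inner_smul_right]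
    rfl
  · simp only [inner_add_right, inner_smul_right]

lemma sqrt_mul_self' (n : ℕ) : √((n : ℝ) + 1) * √((n : ℝ) + 1) = (n : ℝ) + 1 :=
  Real.mul_self_sqrt (by positivity)

/-- the law of the recovered noise -/
theorem wn_law (hB : B 0 = nh n) {α β : ℝ} (hα : 0 < α) (hβ1 : β < 1) (u : FF d)
    (x : Fin (n + 1) → FF d) (hx : (co B (yv u x)).1 ≠ 0) :
    (stepLaw α β x).map (wn B (√(α * (1 - β) ^ 2 / ((n : ℝ) + 1)))
      (√(α * (1 - β) ^ 2 / ((n : ℝ) + 1)) / √((n : ℝ) + 1)) β u x)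
      = (stdGaussian (FF n)).prod (gaussianReal 0 1) := by
  set ρ := α * (1 - β) ^ 2 with hρ
  have hρ0 : 0 < ρ := by
    have : 0 < 1 - β := by linarith
    positivity
  set c := √(ρ / ((n : ℝ) + 1)) with hc
  have hc0 : 0 < c := Real.sqrt_pos.mpr (by positivity)
  have hc2 : c ^ 2 = ρ / ((n : ℝ) + 1) := Real.sq_sqrt (by positivity)
  set z := (co B (yv u x)).1 with hz
  have hz0 : 0 < ‖z‖ := norm_pos_iff.mpr hx
  set s := c * ‖z‖ with hs
  have hs0 : 0 < s := by positivity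
  -- the law of the projected rows
  have hS : (ρ • cov x).PosSemidef := (cov_psd x).smul hρ0.le
  have hs2 : s ^ 2 = u ⬝ᵥ (ρ • cov x) *ᵥ u := by
    rw [smul_mulVec, dotProduct_smul, cov_quad, smul_eq_mul, ← norm_co B hB u x, hs, mul_pow, hc2,
      cast_succ']
    ring
  have hrow : ∀ i, (multivariateGaussian (β • x i + (1 - β) • mean x) (ρ • cov x)).map
      (fun y => ⟪u, y⟫) = (gaussianReal 0 1).map
        (fun r => (β * ⟪u, x i⟫ + (1 - β) * ⟪u, mean x⟫) + s * r) := by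
    intro i
    rw [mg_inner u _ hS hs2, inner_add_right, inner_smul_right, inner_smul_right]
  have hproj : (stepLaw α β x).map (fun x' (i : Fin (n + 1)) => ⟪u, x' i⟫)
      = (Measure.pi fun _ : Fin (n + 1) => gaussianReal 0 1).map
        (fun g i => (β * ⟪u, x i⟫ + (1 - β) * ⟪u, mean x⟫) + s * g i) := by
    have p1 : ∀ i : Fin (n + 1), IsProbabilityMeasure ((multivariateGaussian
        (β • x i + (1 - β) • mean x) (ρ • cov x)).map (fun y => ⟪u, y⟫)) := fun i =>
      Measure.isProbabilityMeasure_map (by fun_prop)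
    have p2 : ∀ i : Fin (n + 1), IsProbabilityMeasure ((gaussianReal 0 1).map
        (fun r => (β * ⟪u, x i⟫ + (1 - β) * ⟪u, mean x⟫) + s * r)) := fun i =>
      Measure.isProbabilityMeasure_map (by fun_prop)
    have q1 := Measure.pi_map_pi (μ := fun i : Fin (n + 1) => multivariateGaussian
      (β • x i + (1 - β) • mean x) (ρ • cov x)) (f := fun _ y => ⟪u, y⟫)
      (fun _ => by fun_prop)
    have q2 := Measure.pi_map_pi (μ := fun _ : Fin (n + 1) => gaussianReal 0 1)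
      (f := fun i r => (β * ⟪u, x i⟫ + (1 - β) * ⟪u, mean x⟫) + s * r)
      (fun _ => by fun_prop)
    rw [q2]
    unfold stepLaw
    rw [q1]
    simp only [hrow]
  -- the recovered noise as a function of the projected rows
  set w' : (Fin (n + 1) → ℝ) → FF n × ℝ := fun y =>
    (s⁻¹ • ((co B (WithLp.toLp 2 y)).1 - β • z),
      ((c / √((n : ℝ) + 1)) * ‖z‖)⁻¹ *
        ((√((n : ℝ) + 1))⁻¹ * (co B (WithLp.toLp 2 y)).2 - ⟪u, mean x⟫)) with hw'
  have hcoL : Measurable fun y : Fin (n + 1) → ℝ => co B (WithLp.toLp 2 y) :=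
    (co_meas B).comp (by fun_prop)
  have hw'm : Measurable w' := by
    rw [hw']
    have h1 : Measurable fun y : Fin (n + 1) → ℝ => (co B (WithLp.toLp 2 y)).1 := hcoL.fst
    have h2 : Measurable fun y : Fin (n + 1) → ℝ => (co B (WithLp.toLp 2 y)).2 := hcoL.snd
    have h3 : Measurable fun y : Fin (n + 1) → ℝ =>
        s⁻¹ • ((co B (WithLp.toLp 2 y)).1 - β • z) := (h1.sub_const (β • z)).const_smul s⁻¹
    exact h3.prodMk (((h2.const_mul _).sub_const _).const_mul _)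
  have hwn : wn B c (c / √((n : ℝ) + 1)) β u x
      = w' ∘ (fun x' (i : Fin (n + 1)) => ⟪u, x' i⟫) := by
    funext x'
    simp only [wn, hw', Function.comp_apply]
    have h1 : (WithLp.toLp 2 fun i => ⟪u, x' i⟫ : FF (n + 1)) = yv u x' := rfl
    rw [h1, co_snd B hB u x', inv_mul_cancel_left₀ (sqrt_pos' n).ne']
  have hpm : Measurable (fun (x' : Fin (n + 1) → FF d) (i : Fin (n + 1)) => ⟪u, x' i⟫) := by
    apply measurable_pi_lambda
    intro i
    have : Measurable fun y : FF d => ⟪u, y⟫ := by fun_prop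
    exact this.comp (measurable_pi_apply i)
  have hgm : Measurable (fun (g : Fin (n + 1) → ℝ) i =>
      (β * ⟪u, x i⟫ + (1 - β) * ⟪u, mean x⟫) + s * g i) := by fun_prop
  rw [hwn, ← Measure.map_map hw'm hpm, hproj, Measure.map_map hw'm hgm]
  have hcomp : w' ∘ (fun (g : Fin (n + 1) → ℝ) i =>
      (β * ⟪u, x i⟫ + (1 - β) * ⟪u, mean x⟫) + s * g i)
      = (co B) ∘ (WithLp.toLp 2) := by
    funext g
    have h1 : (WithLp.toLp 2 (fun i => (β * ⟪u, x i⟫ + (1 - β) * ⟪u, mean x⟫) + s * g i)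
        : FF (n + 1)) = (((1 - β) * ⟪u, mean x⟫ * √((n : ℝ) + 1)) • B 0 + β • yv u x)
          + s • (WithLp.toLp 2 g) := by
      ext i
      rw [hB]
      have h2 : (nh n) i = (√((n : ℝ) + 1))⁻¹ := rfl
      have h3 : (yv u x) i = ⟪u, x i⟫ := rfl
      simp only [PiLp.add_apply, PiLp.smul_apply, smul_eq_mul, h2, h3]
      have := sqrt_pos' n
      field_simp
      ring
    have h4 : co B (((1 - β) * ⟪u, mean x⟫ * √((n : ℝ) + 1)) • B 0)
        = (0, (1 - β) * ⟪u, mean x⟫ * √((n : ℝ) + 1)) := by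
      unfold co
      ext i
      · simp only [inner_smul_right]
        have : ⟪B i.succ, B 0⟫ = 0 := B.orthonormal.2 (Fin.succ_ne_zero i)
        rw [this, mul_zero]
        rfl
      · simp only [inner_smul_right]
        have : ⟪B 0, B 0⟫ = 1 := by
          rw [real_inner_self_eq_norm_sq, B.orthonormal.1 0]; norm_num
        rw [this, mul_one]
    simp only [hw', Function.comp_apply]
    rw [h1, co_lin, co_lin, h4]
    simp only
    rw [co_snd B hB u x, ← hz]
    ext i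
    · simp only [zero_add, add_sub_cancel_left]
      rw [smul_smul, inv_mul_cancel₀ hs0.ne', one_smul]
    · simp only
      have h5 := sqrt_pos' n
      have h6 : (√((n : ℝ) + 1))⁻¹ * ((1 - β) * ⟪u, mean x⟫ * √((n : ℝ) + 1)
          + β * (√((n : ℝ) + 1) * ⟪u, mean x⟫) + s * (co B (WithLp.toLp 2 g)).2) - ⟪u, mean x⟫
          = (c / √((n : ℝ) + 1) * ‖z‖) * (co B (WithLp.toLp 2 g)).2 := by
        rw [hs]
        field_simp
        ring
      rw [h6, inv_mul_cancel_left₀]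
      positivity
  rw [hcomp, ← Measure.map_map (co_meas B) (by fun_prop), map_pi_eq_stdGaussian]
  exact co_law B

end proj

end Pool.Agent.R815.GC
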