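import Mathlib

/-!
# A maximal inequality for sums of independent centred variables
-/

namespace Pool.Agent.R815.GC

open MeasureTheory ProbabilityTheory Filter Topology Finset

/-- increments `ξ t`, adapted with delay one, independent of the past, with law `Ξ` -/
structure Steps {Ω : Type} [mΩ : MeasurableSpace Ω] (μ : Measure Ω) (ℱ : ℕ → MeasurableSpace Ω)
    (ξ : ℕ → Ω → ℝ) (Ξ : Measure ℝ) : Prop where
  le : ∀ t, ℱ t ≤ mΩ
  mono : Monotone ℱ
  meas : ∀ t, Measurable[ℱ (t + 1)] (ξ t)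
  indep : ∀ t, Indep (ℱ t) (MeasurableSpace.comap (ξ t) inferInstance) μ
  law : ∀ t, μ.map (ξ t) = Ξ

section walk

variable {Ω : Type} [mΩ : MeasurableSpace Ω] {μ : Measure Ω} [IsProbabilityMeasure μ]
  {ℱ : ℕ → MeasurableSpace Ω} {ξ : ℕ → Ω → ℝ} {Ξ : Measure ℝ}

lemma Steps.meas' (h : Steps μ ℱ ξ Ξ) (t : ℕ) : Measurable (ξ t) :=
  (h.meas t).mono (h.le (t + 1)) le_rfl

lemma Steps.indepFun (h : Steps μ ℱ ξ Ξ) {t : ℕ} {Y : Ω → ℝ} (hY : Measurable[ℱ t] Y) :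
    IndepFun Y (ξ t) μ := by
  rw [IndepFun_iff_Indep]
  exact indep_of_indep_of_le_left (h.indep t) hY.comap_le

lemma Steps.int_mul (h : Steps μ ℱ ξ Ξ) {t : ℕ} {Y : Ω → ℝ} (hY : Measurable[ℱ t] Y)
    (hYi : Integrable Y μ) {φ : ℝ → ℝ} (hφ : Measurable φ) (hφi : Integrable φ Ξ) :
    Integrable (fun ω => Y ω * φ (ξ t ω)) μ ∧
      ∫ ω, Y ω * φ (ξ t ω) ∂μ = (∫ ω, Y ω ∂μ) * ∫ x, φ x ∂Ξ := by
  have hI : IndepFun Y (φ ∘ ξ t) μ := (h.indepFun hY).comp measurable_id hφ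
  have hi : Integrable (φ ∘ ξ t) μ := by
    rw [← h.law t] at hφi
    exact (integrable_map_measure hφ.aestronglyMeasurable (h.meas' t).aemeasurable).mp hφi
  constructor
  · exact hI.integrable_mul hYi hi
  · have h1 := hI.integral_mul_eq_mul_integral hYi.aestronglyMeasurable hi.aestronglyMeasurable
    have h2 : ∫ x, φ x ∂Ξ = ∫ ω, (φ ∘ ξ t) ω ∂μ := by
      rw [← h.law t, integral_map (h.meas' t).aemeasurable hφ.aestronglyMeasurable]
      rfl
    rw [h2]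
    exact h1

/-- partial sums -/
def SS (ξ : ℕ → Ω → ℝ) (t : ℕ) (ω : Ω) : ℝ := ∑ r ∈ range t, ξ r ω

open Classical in
/-- the walk has not passed the level `x` before `s` -/
noncomputable def II (ξ : ℕ → Ω → ℝ) (x : ℝ) (s : ℕ) (ω : Ω) : ℝ :=
  if ∀ r ≤ s, SS ξ r ω ≤ x then 1 else 0

/-- the stopped walk -/
noncomputable def MMM (ξ : ℕ → Ω → ℝ) (x : ℝ) (s : ℕ) (ω : Ω) : ℝ :=
  ∑ r ∈ range s, II ξ x r ω * ξ r ω

omit mΩ in
lemma II_nonneg (x : ℝ) (s : ℕ) (ω : Ω) : 0 ≤ II ξ x s ω := by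
  unfold II; split_ifs <;> norm_num

omit mΩ in
lemma II_le (x : ℝ) (s : ℕ) (ω : Ω) : II ξ x s ω ≤ 1 := by
  unfold II; split_ifs <;> norm_num

omit mΩ in
lemma II_sq (x : ℝ) (s : ℕ) (ω : Ω) : II ξ x s ω ^ 2 = II ξ x s ω := by
  unfold II; split_ifs <;> norm_num

omit mΩ in
lemma II_anti (x : ℝ) {s t : ℕ} (hst : s ≤ t) (ω : Ω) : II ξ x t ω ≤ II ξ x s ω := by
  unfold II
  split_ifs with h1 h2
  · exact le_rfl
  · exact absurd (fun r hr => h1 r (hr.trans hst)) h2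
  · norm_num
  · exact le_rfl

lemma Steps.SS_meas (h : Steps μ ℱ ξ Ξ) (t : ℕ) : Measurable[ℱ t] (SS ξ t) := by
  unfold SS
  apply Finset.measurable_fun_sum
  intro r hr
  exact (h.meas r).mono (h.mono (Finset.mem_range.mp hr)) le_rfl

lemma Steps.II_meas (h : Steps μ ℱ ξ Ξ) (x : ℝ) (s : ℕ) : Measurable[ℱ s] (II ξ x s) := by
  classical
  unfold II
  apply Measurable.ite _ measurable_const measurable_const
  have : {ω | ∀ r ≤ s, SS ξ r ω ≤ x} = ⋂ r ∈ Finset.range (s + 1), {ω | SS ξ r ω ≤ x} := by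
    ext ω; simp
  rw [this]
  apply Finset.measurableSet_biInter
  intro r hr
  have h1 : Measurable[ℱ s] (SS ξ r) :=
    (h.SS_meas r).mono (h.mono (Nat.lt_succ_iff.mp (Finset.mem_range.mp hr))) le_rfl
  exact h1 measurableSet_Iic

lemma Steps.MMM_meas (h : Steps μ ℱ ξ Ξ) (x : ℝ) (s : ℕ) : Measurable[ℱ s] (MMM ξ x s) := by
  unfold MMM
  apply Finset.measurable_fun_sum
  intro r hr
  have hr' := Finset.mem_range.mp hr
  exact ((h.II_meas x r).mono (h.mono hr'.le) le_rfl).mul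
    ((h.meas r).mono (h.mono hr') le_rfl)

lemma MMM_succ (x : ℝ) (s : ℕ) (ω : Ω) :
    MMM ξ x (s + 1) ω = MMM ξ x s ω + II ξ x s ω * ξ s ω := by
  unfold MMM
  rw [Finset.sum_range_succ]

lemma abs_le_one_add_pow4 (a : ℝ) : |a| ≤ 1 + a ^ 4 := by
  rw [abs_le]
  constructor <;> nlinarith [sq_nonneg (a ^ 2 - 1 / 4), sq_nonneg (a - 1), sq_nonneg (a + 1), sq_nonneg (a^2), sq_nonneg (a - 1/2), sq_nonneg (a + 1/2)]

lemma abs_le_one_add_sq (a : ℝ) : |a| ≤ 1 + a ^ 2 := by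
  rw [abs_le]
  constructor <;> nlinarith [sq_nonneg (a - 1 / 2), sq_nonneg (a + 1 / 2)]

lemma sq_le_one_add_pow4 (a : ℝ) : a ^ 2 ≤ 1 + a ^ 4 := by
  nlinarith [sq_nonneg (a ^ 2 - 1)]

lemma abs_pow3_le (a : ℝ) : |a ^ 3| ≤ 1 + a ^ 4 := by
  have h1 : |a ^ 3| = |a| ^ 3 := by rw [abs_pow]
  have h2 : a ^ 4 = |a| ^ 4 := by
    have : |a| ^ 4 = (|a| ^ 2) ^ 2 := by ring
    rw [this, sq_abs]; ring
  rw [h1, h2]
  have h3 := abs_nonneg a
  nlinarith [sq_nonneg (|a| ^ 2 - |a|), sq_nonneg (|a| - 1), mul_nonneg h3 (sq_nonneg (|a| - 1)), sq_nonneg (|a|^2 - |a|/2)]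

lemma integrable_of_le_pow4 {M Y : Ω → ℝ} (hM : Integrable (fun ω => M ω ^ 4) μ)
    (hY : Measurable Y) (h : ∀ ω, |Y ω| ≤ 1 + M ω ^ 4) : Integrable Y μ := by
  apply Integrable.mono' ((integrable_const (1 : ℝ)).add hM) hY.aestronglyMeasurable
  exact Filter.Eventually.of_forall h

lemma int_add' {f g : Ω → ℝ} (hf : Integrable f μ) (hg : Integrable g μ) :
    Integrable (fun ω => f ω + g ω) μ := hf.add hg

/-- moment recursion of the stopped walk -/
lemma Steps.moments (h : Steps μ ℱ ξ Ξ) (h4 : Integrable (fun x => x ^ 4) Ξ)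
    (h1 : ∫ x, x ∂Ξ = 0) (x : ℝ) (t : ℕ) (s : ℕ) (hs : s ≤ t) :
    Integrable (fun ω => MMM ξ x s ω ^ 4) μ ∧
    ∫ ω, MMM ξ x s ω ∂μ = 0 ∧
    ∫ ω, MMM ξ x s ω ^ 2 ∂μ = (∫ x, x ^ 2 ∂Ξ) * ∑ r ∈ range s, ∫ ω, II ξ x r ω ∂μ ∧
    ∫ ω, MMM ξ x s ω ^ 4 ∂μ ≤ s * (6 * (∫ x, x ^ 2 ∂Ξ) ^ 2 * t
      + 4 * |∫ x, x ^ 3 ∂Ξ| * (1 + (∫ x, x ^ 2 ∂Ξ) * t) + ∫ x, x ^ 4 ∂Ξ) := by
  have hP : IsProbabilityMeasure Ξ := by
    rw [← h.law 0]
    exact Measure.isProbabilityMeasure_map (h.meas' 0).aemeasurable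
  have i4 := h4
  have i1 : Integrable (fun x : ℝ => x) Ξ :=
    Integrable.mono' ((integrable_const (1 : ℝ)).add h4) measurable_id.aestronglyMeasurable
      (Filter.Eventually.of_forall fun a => abs_le_one_add_pow4 a)
  have i2 : Integrable (fun x : ℝ => x ^ 2) Ξ :=
    Integrable.mono' ((integrable_const (1 : ℝ)).add h4)
      (measurable_id.pow_const 2).aestronglyMeasurable
      (Filter.Eventually.of_forall fun a => by
        rw [Real.norm_eq_abs, abs_of_nonneg (sq_nonneg a)]; exact sq_le_one_add_pow4 a)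
  have i3 : Integrable (fun x : ℝ => x ^ 3) Ξ :=
    Integrable.mono' ((integrable_const (1 : ℝ)).add h4)
      (measurable_id.pow_const 3).aestronglyMeasurable
      (Filter.Eventually.of_forall fun a => abs_pow3_le a)
  have A2 : 0 ≤ ∫ x, x ^ 2 ∂Ξ := integral_nonneg fun _ => sq_nonneg _
  have A4 : 0 ≤ ∫ x, x ^ 4 ∂Ξ := integral_nonneg fun _ => by positivity
  induction s with
  | zero => simp [MMM]
  | succ s ih =>
    obtain ⟨j4, j1, j2, j5⟩ := ih (by omega)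
    have hMm := h.MMM_meas x s
    have hIm := h.II_meas x s
    have hMm' : Measurable (MMM ξ x s) := hMm.mono (h.le s) le_rfl
    have hIm' : Measurable (II ξ x s) := hIm.mono (h.le s) le_rfl
    have hI1 : ∀ ω, |II ξ x s ω| ≤ 1 := fun ω => by
      rw [abs_of_nonneg (II_nonneg x s ω)]; exact II_le x s ω
    have k0 : Integrable (II ξ x s) μ :=
      integrable_of_le_pow4 j4 hIm' fun ω => by
        have := hI1 ω
        have : 0 ≤ MMM ξ x s ω ^ 4 := by positivity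
        linarith
    have kM : Integrable (MMM ξ x s) μ :=
      integrable_of_le_pow4 j4 hMm' fun ω => abs_le_one_add_pow4 _
    have kM2 : Integrable (fun ω => MMM ξ x s ω ^ 2) μ :=
      integrable_of_le_pow4 j4 (hMm'.pow_const 2) fun ω => by
        rw [abs_of_nonneg (sq_nonneg _)]; exact sq_le_one_add_pow4 _
    have k1 : Integrable (fun ω => MMM ξ x s ω * II ξ x s ω) μ :=
      integrable_of_le_pow4 j4 (hMm'.mul hIm') fun ω => by
        rw [abs_mul]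
        exact (mul_le_of_le_one_right (abs_nonneg _) (hI1 ω)).trans (abs_le_one_add_pow4 _)
    have k2 : Integrable (fun ω => MMM ξ x s ω ^ 2 * II ξ x s ω) μ :=
      integrable_of_le_pow4 j4 ((hMm'.pow_const 2).mul hIm') fun ω => by
        rw [abs_mul]
        refine (mul_le_of_le_one_right (abs_nonneg _) (hI1 ω)).trans ?_
        rw [abs_of_nonneg (sq_nonneg _)]; exact sq_le_one_add_pow4 _
    have k3 : Integrable (fun ω => MMM ξ x s ω ^ 3 * II ξ x s ω) μ :=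
      integrable_of_le_pow4 j4 ((hMm'.pow_const 3).mul hIm') fun ω => by
        rw [abs_mul]
        exact (mul_le_of_le_one_right (abs_nonneg _) (hI1 ω)).trans (abs_pow3_le _)
    obtain ⟨a01, b01⟩ := h.int_mul hIm k0 measurable_id i1
    obtain ⟨a02, b02⟩ := h.int_mul hIm k0 (measurable_id.pow_const 2) i2
    obtain ⟨a04, b04⟩ := h.int_mul hIm k0 (measurable_id.pow_const 4) i4
    obtain ⟨a11, b11⟩ := h.int_mul (hMm.mul hIm) k1 measurable_id i1
    obtain ⟨a13, b13⟩ := h.int_mul (hMm.mul hIm) k1 (measurable_id.pow_const 3) i3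
    obtain ⟨a22, b22⟩ := h.int_mul ((hMm.pow_const 2).mul hIm) k2 (measurable_id.pow_const 2) i2
    obtain ⟨a31, b31⟩ := h.int_mul ((hMm.pow_const 3).mul hIm) k3 measurable_id i1
    simp only [Pi.mul_apply, id_eq] at a01 b01 a02 b02 a04 b04 a11 b11 a13 b13 a22 b22 a31 b31
    have e4 : ∀ ω, MMM ξ x (s + 1) ω ^ 4 = MMM ξ x s ω ^ 4
        + 4 * (MMM ξ x s ω ^ 3 * II ξ x s ω * ξ s ω)
        + 6 * (MMM ξ x s ω ^ 2 * II ξ x s ω * ξ s ω ^ 2)
        + 4 * (MMM ξ x s ω * II ξ x s ω * ξ s ω ^ 3)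
        + II ξ x s ω * ξ s ω ^ 4 := by
      intro ω
      rw [MMM_succ]
      have q2 := II_sq (ξ := ξ) x s ω
      have q3 : II ξ x s ω ^ 3 = II ξ x s ω := by
        have : II ξ x s ω ^ 3 = II ξ x s ω ^ 2 * II ξ x s ω := by ring
        rw [this, q2, ← sq, q2]
      have q4 : II ξ x s ω ^ 4 = II ξ x s ω := by
        have : II ξ x s ω ^ 4 = II ξ x s ω ^ 2 * II ξ x s ω ^ 2 := by ring
        rw [this, q2, ← sq, q2]
      have : (MMM ξ x s ω + II ξ x s ω * ξ s ω) ^ 4 = MMM ξ x s ω ^ 4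
        + 4 * (MMM ξ x s ω ^ 3 * II ξ x s ω * ξ s ω)
        + 6 * (MMM ξ x s ω ^ 2 * II ξ x s ω ^ 2 * ξ s ω ^ 2)
        + 4 * (MMM ξ x s ω * II ξ x s ω ^ 3 * ξ s ω ^ 3)
        + II ξ x s ω ^ 4 * ξ s ω ^ 4 := by ring
      rw [this, q2, q3, q4]
    have e2 : ∀ ω, MMM ξ x (s + 1) ω ^ 2 = MMM ξ x s ω ^ 2
        + 2 * (MMM ξ x s ω * II ξ x s ω * ξ s ω) + II ξ x s ω * ξ s ω ^ 2 := by
      intro ω
      rw [MMM_succ]
      have q2 := II_sq (ξ := ξ) x s ω
      have : (MMM ξ x s ω + II ξ x s ω * ξ s ω) ^ 2 = MMM ξ x s ω ^ 2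
        + 2 * (MMM ξ x s ω * II ξ x s ω * ξ s ω) + II ξ x s ω ^ 2 * ξ s ω ^ 2 := by ring
      rw [this, q2]
    have m2bound : ∫ ω, MMM ξ x s ω ^ 2 ∂μ ≤ (∫ x, x ^ 2 ∂Ξ) * t := by
      rw [j2]
      apply mul_le_mul_of_nonneg_left _ A2
      calc ∑ r ∈ range s, ∫ ω, II ξ x r ω ∂μ ≤ ∑ r ∈ range s, (1 : ℝ) := by
            apply Finset.sum_le_sum
            intro r _
            calc ∫ ω, II ξ x r ω ∂μ ≤ ∫ _, (1 : ℝ) ∂μ := by
                  apply integral_mono_of_nonneg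
                    (Filter.Eventually.of_forall fun ω => II_nonneg x r ω) (integrable_const _)
                  exact Filter.Eventually.of_forall fun ω => II_le x r ω
              _ = 1 := by simp
        _ = s := by simp
        _ ≤ t := by exact_mod_cast (by omega : s ≤ t)
    refine ⟨?_, ?_, ?_, ?_⟩
    · have : (fun ω => MMM ξ x (s + 1) ω ^ 4) = fun ω => MMM ξ x s ω ^ 4
        + 4 * (MMM ξ x s ω ^ 3 * II ξ x s ω * ξ s ω)
        + 6 * (MMM ξ x s ω ^ 2 * II ξ x s ω * ξ s ω ^ 2)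
        + 4 * (MMM ξ x s ω * II ξ x s ω * ξ s ω ^ 3)
        + II ξ x s ω * ξ s ω ^ 4 := by funext ω; exact e4 ω
      rw [this]
      exact int_add' (int_add' (int_add' (int_add' j4 (a31.const_mul 4)) (a22.const_mul 6))
        (a13.const_mul 4)) a04
    · have : (fun ω => MMM ξ x (s + 1) ω) = fun ω => MMM ξ x s ω + II ξ x s ω * ξ s ω := by
        funext ω; exact MMM_succ x s ω
      rw [this, integral_add kM a01, j1, b01, h1]
      simp
    · have : (fun ω => MMM ξ x (s + 1) ω ^ 2) = fun ω => MMM ξ x s ω ^ 2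
        + 2 * (MMM ξ x s ω * II ξ x s ω * ξ s ω) + II ξ x s ω * ξ s ω ^ 2 := by
        funext ω; exact e2 ω
      rw [this, integral_add (int_add' kM2 (a11.const_mul 2)) a02,
        integral_add kM2 (a11.const_mul 2), integral_const_mul, b11, b02, h1, j2,
        Finset.sum_range_succ]
      ring
    · have : (fun ω => MMM ξ x (s + 1) ω ^ 4) = fun ω => MMM ξ x s ω ^ 4
        + 4 * (MMM ξ x s ω ^ 3 * II ξ x s ω * ξ s ω)
        + 6 * (MMM ξ x s ω ^ 2 * II ξ x s ω * ξ s ω ^ 2)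
        + 4 * (MMM ξ x s ω * II ξ x s ω * ξ s ω ^ 3)
        + II ξ x s ω * ξ s ω ^ 4 := by funext ω; exact e4 ω
      rw [this, integral_add (int_add' (int_add' (int_add' j4 (a31.const_mul 4))
          (a22.const_mul 6)) (a13.const_mul 4)) a04,
        integral_add (int_add' (int_add' j4 (a31.const_mul 4)) (a22.const_mul 6))
          (a13.const_mul 4),
        integral_add (int_add' j4 (a31.const_mul 4)) (a22.const_mul 6),
        integral_add j4 (a31.const_mul 4), integral_const_mul, integral_const_mul,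
        integral_const_mul, b31, b22, b13, b04, h1]
      have c0 : 0 ≤ ∫ ω, II ξ x s ω ∂μ := integral_nonneg fun ω => II_nonneg x s ω
      have c1 : ∫ ω, II ξ x s ω ∂μ ≤ 1 := by
        calc ∫ ω, II ξ x s ω ∂μ ≤ ∫ _, (1 : ℝ) ∂μ := by
              apply integral_mono_of_nonneg
                (Filter.Eventually.of_forall fun ω => II_nonneg x s ω) (integrable_const _)
              exact Filter.Eventually.of_forall fun ω => II_le x s ω
          _ = 1 := by simp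
      have c2 : ∫ ω, MMM ξ x s ω ^ 2 * II ξ x s ω ∂μ ≤ (∫ x, x ^ 2 ∂Ξ) * t := by
        refine le_trans (integral_mono k2 kM2 fun ω => ?_) m2bound
        exact mul_le_of_le_one_right (sq_nonneg _) (II_le x s ω)
      have c3 : |∫ ω, MMM ξ x s ω * II ξ x s ω ∂μ| ≤ 1 + (∫ x, x ^ 2 ∂Ξ) * t := by
        refine (abs_integral_le_integral_abs).trans ?_
        calc ∫ ω, |MMM ξ x s ω * II ξ x s ω| ∂μ ≤ ∫ ω, (1 + MMM ξ x s ω ^ 2) ∂μ := by
              apply integral_mono k1.abs ((integrable_const _).add kM2)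
              intro ω
              simp only
              rw [abs_mul]
              exact (mul_le_of_le_one_right (abs_nonneg _) (hI1 ω)).trans
                (abs_le_one_add_sq _)
          _ = 1 + ∫ ω, MMM ξ x s ω ^ 2 ∂μ := by
              rw [integral_add (integrable_const _) kM2]; simp
          _ ≤ _ := by linarith
      have c4 : (∫ ω, MMM ξ x s ω * II ξ x s ω ∂μ) * ∫ x, x ^ 3 ∂Ξ
          ≤ |∫ x, x ^ 3 ∂Ξ| * (1 + (∫ x, x ^ 2 ∂Ξ) * t) := by
        refine (le_abs_self _).trans ?_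
        rw [abs_mul, mul_comm]
        exact mul_le_mul_of_nonneg_left c3 (abs_nonneg _)
      have c5 : (∫ ω, MMM ξ x s ω ^ 2 * II ξ x s ω ∂μ) * ∫ x, x ^ 2 ∂Ξ
          ≤ (∫ x, x ^ 2 ∂Ξ) ^ 2 * t := by
        have := mul_le_mul_of_nonneg_right c2 A2
        nlinarith
      have c6 : (∫ ω, II ξ x s ω ∂μ) * ∫ x, x ^ 4 ∂Ξ ≤ ∫ x, x ^ 4 ∂Ξ :=
        mul_le_of_le_one_left A4 c1
      push_cast
      linarith

omit mΩ in
lemma abs_le_lam {lam : ℝ} (hl : 0 < lam) (a : ℝ) : |a| ≤ lam + a ^ 4 / lam ^ 3 := by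
  have h4 : a ^ 4 = |a| ^ 4 := by
    have : |a| ^ 4 = (|a| ^ 2) ^ 2 := by ring
    rw [this, sq_abs]; ring
  by_cases h : |a| ≤ lam
  · have : 0 ≤ a ^ 4 / lam ^ 3 := by positivity
    linarith
  · push Not at h
    have h1 : |a| ≤ a ^ 4 / lam ^ 3 := by
      rw [le_div_iff₀ (by positivity), h4]
      have : lam ^ 3 ≤ |a| ^ 3 := pow_le_pow_left₀ hl.le h.le 3
      have h0 := abs_nonneg a
      nlinarith
    linarith

omit mΩ in
lemma path_bound {x lam : ℝ} (hx : 0 ≤ x) (hl : 0 < lam) (ω : Ω) (s : ℕ) :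
    (II ξ x s ω = 1 → MMM ξ x s ω = SS ξ s ω) ∧
    MMM ξ x s ω ≤ x + lam + (∑ r ∈ range s, ξ r ω ^ 4) / lam ^ 3 := by
  induction s with
  | zero =>
    constructor
    · intro _; simp [MMM, SS]
    · simp [MMM]; positivity
  | succ s ih =>
    obtain ⟨ih1, ih2⟩ := ih
    have hS : SS ξ (s + 1) ω = SS ξ s ω + ξ s ω := by
      unfold SS; rw [Finset.sum_range_succ]
    have hM : MMM ξ x (s + 1) ω = MMM ξ x s ω + II ξ x s ω * ξ s ω := by
      unfold MMM; rw [Finset.sum_range_succ]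
    have h01 : II ξ x s ω = 0 ∨ II ξ x s ω = 1 := by
      unfold II; split_ifs <;> simp
    constructor
    · intro h1
      have h2 : II ξ x s ω = 1 := by
        have a1 := II_anti (ξ := ξ) x (Nat.le_succ s) ω
        have a2 := II_le (ξ := ξ) x s ω
        rw [h1] at a1
        linarith
      rw [hM, hS, ih1 h2, h2, one_mul]
    · have hpos : 0 ≤ (ξ s ω) ^ 4 / lam ^ 3 := by positivity
      have hpos2 : 0 ≤ (∑ r ∈ range s, ξ r ω ^ 4) / lam ^ 3 := by positivity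
      rw [Finset.sum_range_succ, add_div]
      rcases h01 with h0 | h1
      · rw [hM, h0]; linarith
      · have h3 : SS ξ s ω ≤ x := by
          by_contra hcon
          have : II ξ x s ω = 0 := by
            unfold II
            rw [if_neg]
            intro hall
            exact hcon (hall s le_rfl)
          rw [this] at h1
          norm_num at h1
        rw [hM, h1, ih1 h1, one_mul]
        have h4 := abs_le_lam hl (ξ s ω)
        have h5 := le_abs_self (ξ s ω)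
        linarith

omit mΩ in
lemma sq_le_lam {lam : ℝ} (hl : 0 < lam) (a : ℝ) : a ^ 2 ≤ lam * |a| + a ^ 4 / lam ^ 2 := by
  have h4 : a ^ 4 = |a| ^ 4 := by
    have : |a| ^ 4 = (|a| ^ 2) ^ 2 := by ring
    rw [this, sq_abs]; ring
  have h2 : a ^ 2 = |a| ^ 2 := (sq_abs a).symm
  have h0 := abs_nonneg a
  by_cases h : |a| ≤ lam
  · have : 0 ≤ a ^ 4 / lam ^ 2 := by positivity
    rw [h2]
    nlinarith
  · push Not at h
    have h1 : a ^ 2 ≤ a ^ 4 / lam ^ 2 := by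
      rw [le_div_iff₀ (by positivity), h4, h2]
      have : lam ^ 2 ≤ |a| ^ 2 := pow_le_pow_left₀ hl.le h.le 2
      nlinarith [sq_nonneg (|a|)]
    have : 0 ≤ lam * |a| := by positivity
    linarith

/-- the probability that the walk stays below `k ^ 3` up to time `k ^ 12` -/
theorem Steps.stay_low (h : Steps μ ℱ ξ Ξ) (h4 : Integrable (fun x => x ^ 4) Ξ)
    (h1 : ∫ x, x ∂Ξ = 0) (h2 : 0 < ∫ x, x ^ 2 ∂Ξ) :
    ∃ C : ℝ, ∀ k : ℕ, 1 ≤ k →
      μ.real {ω | ∀ r ≤ k ^ 12, SS ξ r ω ≤ (k : ℝ) ^ 3} ≤ C / (k : ℝ) ^ 2 := by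
  set A2 := ∫ x, x ^ 2 ∂Ξ with hA2
  set A3 := |∫ x, x ^ 3 ∂Ξ| with hA3
  set A4 := ∫ x, x ^ 4 ∂Ξ with hA4
  have A3n : 0 ≤ A3 := abs_nonneg _
  have A4n : 0 ≤ A4 := integral_nonneg fun _ => by positivity
  set C4 := 6 * A2 ^ 2 + 4 * A3 * (1 + A2) + A4 with hC4
  have C4n : 0 ≤ C4 := by positivity
  refine ⟨(2 * (2 + A4) + C4) / A2, fun k hk => ?_⟩
  have hk1 : (1 : ℝ) ≤ k := by exact_mod_cast hk
  have hk0 : (0 : ℝ) < k := by linarith
  set x : ℝ := (k : ℝ) ^ 3 with hx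
  have hx0 : 0 < x := by positivity
  set t := k ^ 12 with ht
  have htR : (t : ℝ) = (k : ℝ) ^ 12 := by rw [ht]; push_cast; rfl
  have ht1 : (1 : ℝ) ≤ t := by rw [htR]; exact one_le_pow₀ hk1
  obtain ⟨m4, m1, m2, m5⟩ := h.moments h4 h1 x t t le_rfl
  have hMm : Measurable (MMM ξ x t) := (h.MMM_meas x t).mono (h.le t) le_rfl
  have hIm : ∀ r, Measurable (II ξ x r) := fun r => (h.II_meas x r).mono (h.le r) le_rfl
  have kI : ∀ r, Integrable (II ξ x r) μ := fun r => by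
    apply Integrable.of_bound (C := 1) (hIm r).aestronglyMeasurable
    filter_upwards with ω
    rw [Real.norm_eq_abs, abs_of_nonneg (II_nonneg x r ω)]
    exact II_le x r ω
  have kM : Integrable (MMM ξ x t) μ :=
    integrable_of_le_pow4 m4 hMm fun ω => abs_le_one_add_pow4 _
  have kM2 : Integrable (fun ω => MMM ξ x t ω ^ 2) μ :=
    integrable_of_le_pow4 m4 (hMm.pow_const 2) fun ω => by
      rw [abs_of_nonneg (sq_nonneg _)]; exact sq_le_one_add_pow4 _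
  -- lower bound of the second moment
  have hreal : μ.real {ω | ∀ r ≤ t, SS ξ r ω ≤ x} = ∫ ω, II ξ x t ω ∂μ := by
    have hset : MeasurableSet {ω | ∀ r ≤ t, SS ξ r ω ≤ x} := by
      have : {ω | ∀ r ≤ t, SS ξ r ω ≤ x} = ⋂ r ∈ Finset.range (t + 1), {ω | SS ξ r ω ≤ x} := by
        ext ω; simp
      rw [this]
      apply Finset.measurableSet_biInter
      intro r _
      exact ((h.SS_meas r).mono (h.le r) le_rfl) measurableSet_Iic
    have e1 : II ξ x t = Set.indicator {ω | ∀ r ≤ t, SS ξ r ω ≤ x} 1 := by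
      classical
      funext ω
      unfold II
      rw [Set.indicator_apply]
      rfl
    rw [e1, integral_indicator_one hset]
  have hlow : A2 * (t * ∫ ω, II ξ x t ω ∂μ) ≤ ∫ ω, MMM ξ x t ω ^ 2 ∂μ := by
    rw [m2]
    apply mul_le_mul_of_nonneg_left _ h2.le
    calc (t : ℝ) * ∫ ω, II ξ x t ω ∂μ = ∑ r ∈ range t, ∫ ω, II ξ x t ω ∂μ := by
          rw [Finset.sum_const, Finset.card_range, nsmul_eq_mul]
      _ ≤ _ := by
          apply Finset.sum_le_sum
          intro r hr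
          apply integral_mono (kI t) (kI r)
          intro ω
          exact II_anti x (Finset.mem_range.mp hr).le ω
  -- upper bound of the first absolute moment
  have habs : ∫ ω, |MMM ξ x t ω| ∂μ ≤ 2 * ((2 + A4) * (k : ℝ) ^ 3) := by
    have q4 : ∀ r, Integrable (fun ω => ξ r ω ^ 4) μ ∧ ∫ ω, ξ r ω ^ 4 ∂μ = A4 := by
      intro r
      constructor
      · have := h4
        rw [← h.law r] at this
        exact (integrable_map_measure (measurable_id.pow_const 4).aestronglyMeasurable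
          (h.meas' r).aemeasurable).mp this
      · have hm4 : Measurable fun x : ℝ => x ^ 4 := by fun_prop
        rw [hA4, ← h.law r, integral_map (h.meas' r).aemeasurable hm4.aestronglyMeasurable]
    have hbd : ∀ ω, |MMM ξ x t ω| ≤ 2 * (x + x + (∑ r ∈ range t, ξ r ω ^ 4) / x ^ 3)
        + (-MMM ξ x t ω) := by
      intro ω
      have p1 := (path_bound (ξ := ξ) hx0.le hx0 ω t).2
      have p2 : 0 ≤ x + x + (∑ r ∈ range t, ξ r ω ^ 4) / x ^ 3 := by positivity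
      rcases abs_cases (MMM ξ x t ω) with ⟨a, _⟩ | ⟨a, _⟩ <;> rw [a] <;> linarith
    have qs : Integrable (fun ω => (∑ r ∈ range t, ξ r ω ^ 4) / x ^ 3) μ :=
      (integrable_finsetSum _ fun r _ => (q4 r).1).div_const _
    have qq : Integrable (fun ω => 2 * (x + x + (∑ r ∈ range t, ξ r ω ^ 4) / x ^ 3)) μ :=
      (int_add' (integrable_const (x + x)) qs).const_mul 2
    have kMn : Integrable (fun ω => -MMM ξ x t ω) μ := kM.neg
    calc ∫ ω, |MMM ξ x t ω| ∂μ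
        ≤ ∫ ω, (2 * (x + x + (∑ r ∈ range t, ξ r ω ^ 4) / x ^ 3) + (-MMM ξ x t ω)) ∂μ :=
          integral_mono kM.abs (int_add' qq kMn) hbd
      _ = 2 * (x + x + t * A4 / x ^ 3) := by
          rw [integral_add qq kMn, integral_neg, m1, integral_const_mul,
            integral_add (integrable_const (x + x)) qs, integral_div,
            integral_finsetSum _ fun r _ => (q4 r).1]
          simp only [(q4 _).2, integral_const, probReal_univ, smul_eq_mul, one_mul,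
            Finset.sum_const, Finset.card_range, nsmul_eq_mul, neg_zero, add_zero]
      _ = 2 * ((2 + A4) * (k : ℝ) ^ 3) := by
          rw [htR, hx]
          field_simp
          ring
  have hM4 : ∫ ω, MMM ξ x t ω ^ 4 ∂μ ≤ C4 * (t : ℝ) ^ 2 := by
    refine m5.trans ?_
    have : 6 * A2 ^ 2 * t + 4 * A3 * (1 + A2 * t) + A4 ≤ C4 * t := by
      rw [hC4]
      have b1 : 4 * A3 * 1 ≤ 4 * A3 * t := mul_le_mul_of_nonneg_left ht1 (by positivity)
      have b2 : A4 * 1 ≤ A4 * t := mul_le_mul_of_nonneg_left ht1 A4n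
      nlinarith
    calc (t : ℝ) * (6 * A2 ^ 2 * t + 4 * A3 * (1 + A2 * t) + A4) ≤ t * (C4 * t) :=
          mul_le_mul_of_nonneg_left this (by positivity)
      _ = C4 * (t : ℝ) ^ 2 := by ring
  have hM2 : ∫ ω, MMM ξ x t ω ^ 2 ∂μ ≤ (2 * (2 + A4) + C4) * (k : ℝ) ^ 10 := by
    have hl2 : (0 : ℝ) < (k : ℝ) ^ 7 := by positivity
    have q1 : Integrable (fun ω => (k : ℝ) ^ 7 * |MMM ξ x t ω|) μ := kM.abs.const_mul _
    have q2 : Integrable (fun ω => MMM ξ x t ω ^ 4 / ((k : ℝ) ^ 7) ^ 2) μ := m4.div_const _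
    calc ∫ ω, MMM ξ x t ω ^ 2 ∂μ
        ≤ ∫ ω, ((k : ℝ) ^ 7 * |MMM ξ x t ω| + MMM ξ x t ω ^ 4 / ((k : ℝ) ^ 7) ^ 2) ∂μ :=
          integral_mono kM2 (int_add' q1 q2) fun ω => sq_le_lam hl2 _
      _ = (k : ℝ) ^ 7 * ∫ ω, |MMM ξ x t ω| ∂μ
          + (∫ ω, MMM ξ x t ω ^ 4 ∂μ) / ((k : ℝ) ^ 7) ^ 2 := by
          rw [integral_add q1 q2, integral_const_mul, integral_div]
      _ ≤ (k : ℝ) ^ 7 * (2 * ((2 + A4) * (k : ℝ) ^ 3))
          + (C4 * (t : ℝ) ^ 2) / ((k : ℝ) ^ 7) ^ 2 := by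
          apply add_le_add
          · exact mul_le_mul_of_nonneg_left habs hl2.le
          · exact div_le_div_of_nonneg_right hM4 (by positivity)
      _ = (2 * (2 + A4) + C4) * (k : ℝ) ^ 10 := by
          rw [htR]
          field_simp
  have hfin : A2 * ((k : ℝ) ^ 12 * ∫ ω, II ξ x t ω ∂μ) ≤ (2 * (2 + A4) + C4) * (k : ℝ) ^ 10 := by
    rw [← htR]; exact hlow.trans hM2
  rw [hreal, div_div, le_div_iff₀ (by positivity)]
  have hk10 : (0 : ℝ) < (k : ℝ) ^ 10 := by positivity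
  have : (∫ ω, II ξ x t ω ∂μ) * (A2 * (k : ℝ) ^ 2) * (k : ℝ) ^ 10
      ≤ (2 * (2 + A4) + C4) * (k : ℝ) ^ 10 := by
    calc (∫ ω, II ξ x t ω ∂μ) * (A2 * (k : ℝ) ^ 2) * (k : ℝ) ^ 10
        = A2 * ((k : ℝ) ^ 12 * ∫ ω, II ξ x t ω ∂μ) := by ring
      _ ≤ _ := hfin
  exact le_of_mul_le_mul_right this hk10

/-- Almost surely, for all large `k`, the walk passes `k ^ 3` before time `k ^ 12`. -/
theorem Steps.ae_high (h : Steps μ ℱ ξ Ξ) (h4 : Integrable (fun x => x ^ 4) Ξ)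
    (h1 : ∫ x, x ∂Ξ = 0) (h2 : 0 < ∫ x, x ^ 2 ∂Ξ) :
    ∀ᵐ ω ∂μ, ∀ᶠ k : ℕ in atTop, ∃ r ≤ k ^ 12, (k : ℝ) ^ 3 < SS ξ r ω := by
  obtain ⟨C, hC⟩ := h.stay_low h4 h1 h2
  have hsum : Summable fun k : ℕ => C / (k : ℝ) ^ 2 := by
    have := (Real.summable_one_div_nat_pow.mpr (by norm_num : 1 < 2)).mul_left C
    simpa [div_eq_mul_inv] using this
  have hC0 : 0 ≤ C := by
    have := hC 1 le_rfl
    have h0 : 0 ≤ μ.real {ω | ∀ r ≤ 1 ^ 12, SS ξ r ω ≤ ((1 : ℕ) : ℝ) ^ 3} := measureReal_nonneg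
    have := h0.trans this
    simpa using this
  have hb : ∀ k : ℕ, μ {ω | 1 ≤ k ∧ ∀ r ≤ k ^ 12, SS ξ r ω ≤ (k : ℝ) ^ 3}
      ≤ ENNReal.ofReal (C / (k : ℝ) ^ 2) := by
    intro k
    by_cases hk : 1 ≤ k
    · have := hC k hk
      have e : {ω | 1 ≤ k ∧ ∀ r ≤ k ^ 12, SS ξ r ω ≤ (k : ℝ) ^ 3}
          = {ω | ∀ r ≤ k ^ 12, SS ξ r ω ≤ (k : ℝ) ^ 3} := by
        ext ω; simp [hk]
      rw [e, ← ofReal_measureReal]
      exact ENNReal.ofReal_le_ofReal this
    · have e : {ω : Ω | 1 ≤ k ∧ ∀ r ≤ k ^ 12, SS ξ r ω ≤ (k : ℝ) ^ 3} = ∅ := by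
        ext ω; simp [hk]
      rw [e]; simp
  have hfin : ∑' k : ℕ, μ {ω | 1 ≤ k ∧ ∀ r ≤ k ^ 12, SS ξ r ω ≤ (k : ℝ) ^ 3} ≠ ⊤ := by
    apply ne_top_of_le_ne_top _ (ENNReal.tsum_le_tsum hb)
    rw [← ENNReal.ofReal_tsum_of_nonneg (fun k => by positivity) hsum]
    exact ENNReal.ofReal_ne_top
  have hbc := ae_eventually_notMem hfin
  filter_upwards [hbc] with ω hω
  filter_upwards [hω, eventually_ge_atTop 1] with k hk hk1
  by_contra hcon
  push Not at hcon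
  exact hk ⟨hk1, hcon⟩

end walk

end Pool.Agent.R815.GC
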